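import Pool.Agent.Helper4_OCS.StageA

/-!
# MP_64dd91_co: OBreaker wins the strict game for all biases above `9 n / 10 + 360`
-/

set_option autoImplicit false

namespace Pool.Agent.Helper4_OCS

open Pool.Agent.Helper51_OCG

variable {M b X n : ℕ}

theorem plan (hp : Par M b X n) : Plan n b (fun t a q kU kD =>
    StA M b t a q kU kD ∨ StB M b X t a q kU kD ∨ StC M b X t a q kU kD) where
  stepU := by
    rintro t a q kU kD (h | h | h) hlt
    · obtain ⟨a', q', kU', kD', g1, g2, g3, g4, g5, g6, g7, g8, g9⟩ := stA_U hp h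
      refine ⟨a', q', kU', kD', g1, g2, g3, g4, g5, g6, g7, g8, ?_⟩
      rcases g9 with g9 | ⟨g9, g10, g11 | g11⟩
      · exact Or.inl g9
      · exact Or.inr ⟨g9, g10, Or.inl g11⟩
      · exact Or.inr ⟨g9, g10, Or.inr (Or.inl g11)⟩
    · obtain ⟨a', q', kU', kD', g1, g2, g3, g4, g5, g6, g7, g8, g9⟩ := stB_U hp h
      refine ⟨a', q', kU', kD', g1, g2, g3, g4, g5, g6, g7, g8, ?_⟩
      rcases g9 with g9 | ⟨g9, g10, g11 | g11⟩
      · exact Or.inl g9
      · exact Or.inr ⟨g9, g10, Or.inr (Or.inl g11)⟩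
      · exact Or.inr ⟨g9, g10, Or.inr (Or.inr g11)⟩
    · obtain ⟨a', q', kU', kD', g1, g2, g3, g4, g5, g6, g7, g8, g9⟩ := stC_U hp h hlt
      refine ⟨a', q', kU', kD', g1, g2, g3, g4, g5, g6, g7, g8, ?_⟩
      rcases g9 with g9 | ⟨g9, g10, g11⟩
      · exact Or.inl g9
      · exact Or.inr ⟨g9, g10, Or.inr (Or.inr g11)⟩
  stepD := by
    rintro t a q kU kD (h | h | h) hlt
    · obtain ⟨a', q', kU', kD', g1, g2, g3, g4, g5, g6, g7, g8, g9⟩ := stA_D hp h
      refine ⟨a', q', kU', kD', g1, g2, g3, g4, g5, g6, g7, g8, ?_⟩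
      rcases g9 with g9 | ⟨g9, g10, g11 | g11⟩
      · exact Or.inl g9
      · exact Or.inr ⟨g9, g10, Or.inl g11⟩
      · exact Or.inr ⟨g9, g10, Or.inr (Or.inl g11)⟩
    · obtain ⟨a', q', kU', kD', g1, g2, g3, g4, g5, g6, g7, g8, g9⟩ := stB_D hp h
      refine ⟨a', q', kU', kD', g1, g2, g3, g4, g5, g6, g7, g8, ?_⟩
      rcases g9 with g9 | ⟨g9, g10, g11 | g11⟩
      · exact Or.inl g9
      · exact Or.inr ⟨g9, g10, Or.inr (Or.inl g11)⟩
      · exact Or.inr ⟨g9, g10, Or.inr (Or.inr g11)⟩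
    · obtain ⟨a', q', kU', kD', g1, g2, g3, g4, g5, g6, g7, g8, g9⟩ := stC_D hp h hlt
      refine ⟨a', q', kU', kD', g1, g2, g3, g4, g5, g6, g7, g8, ?_⟩
      rcases g9 with g9 | ⟨g9, g10, g11⟩
      · exact Or.inl g9
      · exact Or.inr ⟨g9, g10, Or.inr (Or.inr g11)⟩

theorem exists_par (hb : 9 * n + 3600 ≤ 10 * b) (hn : b < n) : ∃ M X, Par M b X n := by
  obtain ⟨M, hM⟩ : ∃ M, M = (b - 2) / 9 := ⟨_, rfl⟩
  obtain ⟨X, h1, h2⟩ := exists_quot (k := 2 * (b + 1)) (by omega) (b * (b + 1) + M * (M - 1))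
  have e1 : X * (2 * (b + 1)) = 2 * ((b + 1) * X) := by ring
  have e2 : (X + 1) * (2 * (b + 1)) = 2 * ((b + 1) * (X + 1)) := by ring
  rw [e1] at h1
  rw [e2] at h2
  exact ⟨M, X, by omega, by omega, by omega, by omega, hn, h1, h2⟩

theorem strict_breaker (n b : ℕ) (hb : 9 * n + 3600 ≤ 10 * b) :
    ¬ OMakerWins (strictRule b) (∅ : Position n) := by
  rcases Nat.lt_or_ge b n with h | h
  · obtain ⟨M, X, hp⟩ := exists_par hb h
    refine breaker_of_plan (by omega) (Or.inl ?_) (plan hp)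
    have hM := hp.M_ge
    refine ⟨Or.inl rfl, by omega, by omega, by omega, by omega, by omega, Or.inl ⟨by omega, ?_⟩⟩
    simp
  · exact breaker_of_le h

end Pool.Agent.Helper4_OCS
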