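import Pool.Agent.Helper4_OCS.Round

/-!
# MP_64dd91_co: from a numerical plan to a strategy of OBreaker under the strict rules
-/

set_option autoImplicit false

namespace Pool.Agent.Helper4_OCS

open Finset Pool.Agent.Helper51_OCG Pool.Agent.Helper15_OCG

variable {n b : ℕ} {P : Position n} {A B : Finset (Fin n)} {kU kD : ℕ} {u v : Fin n}

/-- The number of the pairs. -/
theorem total (h : Legal P) : 2 * (undirected P).card + 2 * P.card = n * (n - 1) := by
  classical
  have hD : (univ : Finset (Fin n)).offDiag =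
      (P ∪ rev P) ∪ (undirected P ∪ rev (undirected P)) := by
    ext ⟨x, y⟩
    rw [mem_offDiag, mem_union, mem_union, mem_union, mem_rev, mem_rev, mem_undirected,
      mem_undirected]
    simp only [mem_univ, true_and]
    constructor
    · intro hxy
      by_cases h1 : (x, y) ∈ P
      · exact Or.inl (Or.inl h1)
      · by_cases h2 : (y, x) ∈ P
        · exact Or.inl (Or.inr h2)
        · right
          rcases lt_or_gt_of_ne hxy with h3 | h3
          · exact Or.inl ⟨h3, h1, h2⟩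
          · exact Or.inr ⟨h3, h2, h1⟩
    · rintro ((h1 | h1) | (h1 | h1))
      · exact (h x y h1).1
      · exact fun h2 => (h y x h1).1 h2.symm
      · exact h1.1.ne
      · exact h1.1.ne'
  have hd1 : Disjoint P (rev P) := by
    rw [Finset.disjoint_left]
    rintro ⟨x, y⟩ h1 h2
    exact (h x y h1).2 (mem_rev.mp h2)
  have hd2 : Disjoint (undirected P) (rev (undirected P)) := by
    rw [Finset.disjoint_left]
    rintro ⟨x, y⟩ h1 h2
    have h3 := (mem_undirected.mp h1).1
    have h4 := (mem_undirected.mp (mem_rev.mp h2)).1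
    exact absurd (lt_trans h3 h4) (lt_irrefl _)
  have hd3 : Disjoint (P ∪ rev P) (undirected P ∪ rev (undirected P)) := by
    rw [Finset.disjoint_left]
    rintro ⟨x, y⟩ h1 h2
    rw [mem_union, mem_rev] at h1
    rw [mem_union, mem_rev] at h2
    rcases h1 with h1 | h1
    · rcases h2 with h2 | h2
      · exact (mem_undirected.mp h2).2.1 h1
      · exact (mem_undirected.mp h2).2.2 h1
    · rcases h2 with h2 | h2
      · exact (mem_undirected.mp h2).2.2 h1
      · exact (mem_undirected.mp h2).2.1 h1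
  have h1 := offDiag_card (univ : Finset (Fin n))
  rw [hD, card_union_of_disjoint hd3, card_union_of_disjoint hd1, card_union_of_disjoint hd2,
    card_rev, card_rev, card_univ, Fintype.card_fin] at h1
  have h2 : n * n - n = n * (n - 1) := by
    rw [Nat.mul_sub, Nat.mul_one]
  omega

theorem card_le_total (h : Legal P) : 2 * P.card ≤ n * (n - 1) := by
  have := total h
  omega

/-- A final position with an undirected edge has a final extension with one more arc. -/
theorem fnl_unit (h : Fnl b P) (hc : 2 * P.card < n * (n - 1)) :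
    ∃ P' : Position n, P ⊆ P' ∧ Fnl b P' ∧ P'.card = P.card + 1 := by
  obtain ⟨A, B, kU, kD, hst, hall, hA, hB⟩ := h
  have h1 := (hst.resetU hall).resetD hall
  have h2 := card_ge h1
  have hn : A.card + B.card = n := by
    have h3 := hst.card_add
    by_contra hcon
    obtain ⟨z, hzA, hzB⟩ := exists_untyped (A := A) (B := B) (by omega)
    rcases hall z with h4 | h4
    · exact hzA h4
    · exact hzB h4
  have key : ∀ k : ℕ, 1 ≤ k → (k - 1) * (k - 1 + 1) + k = k * k := by
    intro k hk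
    obtain ⟨m, rfl⟩ : ∃ m, k = m + 1 := ⟨k - 1, by omega⟩
    rw [Nat.add_sub_cancel]
    ring
  by_cases hU : 2 * TU P B < (A.card - 1) * (A.card - 1 + 1)
  · have hA1 : 1 ≤ A.card := by
      by_contra hcon
      have h5 : A.card = 0 := by omega
      rw [h5] at hU
      simp at hU
    obtain ⟨P', hP', hst', hc'⟩ := unitU h1 (by omega) hU
    exact ⟨P', hP', ⟨A, B, _, _, hst', hall, hA, hB⟩, hc'⟩
  · by_cases hD : 2 * TU (rev P) A < (B.card - 1) * (B.card - 1 + 1)
    · have hB1 : 1 ≤ B.card := by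
        by_contra hcon
        have h5 : B.card = 0 := by omega
        rw [h5] at hD
        simp at hD
      obtain ⟨Q, hQ, hst', hc'⟩ := unitU h1.rev (by omega) hD
      refine ⟨rev Q, ?_, ⟨A, B, _, _, hst'.rev, hall, hA, hB⟩, ?_⟩
      · have := rev_mono hQ
        rwa [rev_rev] at this
      · rw [card_rev, hc', card_rev]
    · exfalso
      have h6 : n * (n - 1) + n = n * n := by
        rcases Nat.eq_zero_or_pos n with h0 | h0
        · rw [h0]
        · obtain ⟨m, hm⟩ : ∃ m, n = m + 1 := ⟨n - 1, by omega⟩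
          rw [hm, Nat.add_sub_cancel]
          ring
      have h7 : (A.card + B.card) * (A.card + B.card) =
          A.card * A.card + 2 * (A.card * B.card) + B.card * B.card := by
        ring
      rw [hn] at h7
      have h8 : (A.card - 1) * (A.card - 1 + 1) + A.card = A.card * A.card := by
        rcases Nat.eq_zero_or_pos A.card with h0 | h0
        · rw [h0]
        · exact key _ h0
      have h9 : (B.card - 1) * (B.card - 1 + 1) + B.card = B.card * B.card := by
        rcases Nat.eq_zero_or_pos B.card with h0 | h0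
        · rw [h0]
        · exact key _ h0
      omega

/-- Filling a final position. -/
theorem fnl_fill (h : Fnl b P) (m : ℕ) (hc : 2 * (P.card + m) ≤ n * (n - 1)) :
    ∃ P' : Position n, P ⊆ P' ∧ Fnl b P' ∧ P'.card = P.card + m := by
  induction m with
  | zero => exact ⟨P, Subset.refl _, h, rfl⟩
  | succ m ih =>
    obtain ⟨P1, hP1, hF1, hc1⟩ := ih (by omega)
    obtain ⟨P2, hP2, hF2, hc2⟩ := fnl_unit hF1 (by omega)
    exact ⟨P2, hP1.trans hP2, hF2, by omega⟩

/-- A numerical plan of OBreaker. `Inv t a q kU kD`: after `t` rounds OBreaker can have `a`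
vertices in `A`, `q` in `B` and the parameters `kU`, `kD`. -/
structure Plan (n b : ℕ) (Inv : ℕ → ℕ → ℕ → ℕ → ℕ → Prop) : Prop where
  stepU : ∀ t a q kU kD, Inv t a q kU kD → a + q < n → ∃ a' q' kU' kD',
    a + 1 ≤ a' ∧ q ≤ q' ∧ a' + q' ≤ n ∧ kU + 1 ≤ kU' ∧ kD ≤ kD' ∧ kU' < a' ∧ kD' < q' ∧
    kU + 1 + a' * q' ≤ b + 1 + a * q ∧
    ((a' + q' = n ∧ a' ≤ b ∧ q' ≤ b) ∨
      (a' + q' < n ∧ 2 * ((b + 1) * (t + 1)) ≤ 2 * (a' * q') + kU' * (kU' + 1) + kD' * (kD' + 1) ∧
        Inv (t + 1) a' q' kU' kD'))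
  stepD : ∀ t a q kU kD, Inv t a q kU kD → a + q < n → ∃ a' q' kU' kD',
    a ≤ a' ∧ q + 1 ≤ q' ∧ a' + q' ≤ n ∧ kU ≤ kU' ∧ kD + 1 ≤ kD' ∧ kU' < a' ∧ kD' < q' ∧
    kD + 1 + a' * q' ≤ b + 1 + a * q ∧
    ((a' + q' = n ∧ a' ≤ b ∧ q' ≤ b) ∨
      (a' + q' < n ∧ 2 * ((b + 1) * (t + 1)) ≤ 2 * (a' * q') + kU' * (kU' + 1) + kD' * (kD' + 1) ∧
        Inv (t + 1) a' q' kU' kD'))

/-- The positions which OBreaker keeps. -/
def Cl (b : ℕ) (Inv : ℕ → ℕ → ℕ → ℕ → ℕ → Prop) (P : Position n) : Prop :=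
  Fnl b P ∨ ∃ t A B kU kD, St P A B kU kD ∧ Inv t A.card B.card kU kD ∧
    A.card + B.card < n ∧ P.card = (b + 1) * t

theorem cl_st {Inv : ℕ → ℕ → ℕ → ℕ → ℕ → Prop} (h : Cl b Inv P) :
    ∃ A B kU kD, St P A B kU kD := by
  rcases h with ⟨A, B, kU, kD, h, -⟩ | ⟨t, A, B, kU, kD, h, -⟩
  · exact ⟨A, B, kU, kD, h⟩
  · exact ⟨A, B, kU, kD, h⟩

theorem all_of_card (h : St P A B kU kD) (hn : A.card + B.card = n) : ∀ x, x ∈ A ∨ x ∈ B := by
  intro x
  by_contra hcon
  rw [not_or] at hcon
  have hd : Disjoint A B := Finset.disjoint_left.mpr fun {x} hx hx' => h.disj x hx hx'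
  have h6 : x ∉ A ∪ B := by
    rw [mem_union, not_or]
    exact hcon
  have h7 : (insert x (A ∪ B)).card ≤ n := by
    refine (card_le_univ _).trans ?_
    rw [Fintype.card_fin]
  rw [card_insert_of_notMem h6, card_union_of_disjoint hd] at h7
  omega

/-- From a final position after the answer to the target. -/
theorem fnl_target {P1 : Position n} (hP : P ⊆ P1) (hm : (u, v) ∈ P1) (hF : Fnl b P1)
    (hc : P1.card ≤ P.card + (b + 1)) :
    ∃ P' : Position n, P ⊆ P' ∧ (u, v) ∈ P' ∧ Fnl b P' ∧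
      (P'.card = P.card + (b + 1) ∨ (2 * P'.card = n * (n - 1) ∧ P'.card ≤ P.card + (b + 1))) := by
  have hleg : Legal P1 := by
    obtain ⟨A, B, kU, kD, hst, -⟩ := hF
    exact hst.legal
  have h1 := card_le_total hleg
  have heven : ∃ m, n * (n - 1) = 2 * m := by
    have := total hleg
    exact ⟨(undirected P1).card + P1.card, by omega⟩
  obtain ⟨m, hm2⟩ := heven
  by_cases hbig : P.card + (b + 1) ≤ m
  · obtain ⟨P2, hP2, hF2, hc2⟩ := fnl_fill hF (P.card + (b + 1) - P1.card) (by omega)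
    exact ⟨P2, hP.trans hP2, hP2 hm, hF2, Or.inl (by omega)⟩
  · obtain ⟨P2, hP2, hF2, hc2⟩ := fnl_fill hF (m - P1.card) (by omega)
    exact ⟨P2, hP.trans hP2, hP2 hm, hF2, Or.inr ⟨by omega, by omega⟩⟩

/-- One round. -/
theorem cl_step {Inv : ℕ → ℕ → ℕ → ℕ → ℕ → Prop} (hp : Plan n b Inv) (h : Cl b Inv P)
    (huv : u ≠ v) (h1 : (u, v) ∉ P) (h2 : (v, u) ∉ P) :
    ∃ P' : Position n, P ⊆ P' ∧ (u, v) ∈ P' ∧ Cl b Inv P' ∧
      (P'.card = P.card + (b + 1) ∨ (2 * P'.card = n * (n - 1) ∧ P'.card ≤ P.card + (b + 1))) := by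
  rcases h with h | ⟨t, A, B, kU, kD, hst, hinv, hlt, hcard⟩
  · obtain ⟨P1, hP1, hm, hF, hc⟩ := fnl_step h huv h1 h2
    obtain ⟨P2, g1, g2, g3, g4⟩ := fnl_target hP1 hm hF (by omega)
    exact ⟨P2, g1, g2, Or.inl g3, g4⟩
  · rcases hst.cases h1 h2 with ⟨hu, hv⟩ | ⟨hu, hv⟩
    · obtain ⟨a', q', kU', kD', e1, e2, e3, e4, e5, e6, e7, e8, e9⟩ :=
        hp.stepU t _ _ _ _ hinv hlt
      obtain ⟨P1, A1, B1, hP1, hm, hst1, hA1, hB1, hc1⟩ := preU hst huv hu hv h1 h2 e1 e2 e3
      rcases e9 with ⟨e9, e10, e11⟩ | ⟨e9, e10, e11⟩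
      · have hF : Fnl b P1 := ⟨A1, B1, _, _, hst1, all_of_card hst1 (by omega), by omega, by omega⟩
        obtain ⟨P2, g1, g2, g3, g4⟩ := fnl_target hP1 hm hF (by omega)
        exact ⟨P2, g1, g2, Or.inl g3, g4⟩
      · have hst2 := st_mono hst1 e4 e5
        have e12 : (b + 1) * (t + 1) = (b + 1) * t + (b + 1) := by ring
        obtain ⟨P3, hP3, hst3, hc3⟩ := fill hst2 (by omega) (by omega)
          (P.card + (b + 1) - P1.card) (by rw [hA1, hB1]; omega)
        refine ⟨P3, hP1.trans hP3, hP3 hm, Or.inr ⟨t + 1, A1, B1, kU', kD', hst3, ?_, ?_, ?_⟩, ?_⟩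
        · rw [hA1, hB1]
          exact e11
        · omega
        · omega
        · left
          omega
    · obtain ⟨a', q', kU', kD', e1, e2, e3, e4, e5, e6, e7, e8, e9⟩ :=
        hp.stepD t _ _ _ _ hinv hlt
      obtain ⟨P1, A1, B1, hP1, hm, hst1, hA1, hB1, hc1⟩ := preD hst huv hu hv h1 h2 e1 e2 e3
      rcases e9 with ⟨e9, e10, e11⟩ | ⟨e9, e10, e11⟩
      · have hF : Fnl b P1 := ⟨A1, B1, _, _, hst1, all_of_card hst1 (by omega), by omega, by omega⟩
        obtain ⟨P2, g1, g2, g3, g4⟩ := fnl_target hP1 hm hF (by omega)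
        exact ⟨P2, g1, g2, Or.inl g3, g4⟩
      · have hst2 := st_mono hst1 e4 e5
        have e12 : (b + 1) * (t + 1) = (b + 1) * t + (b + 1) := by ring
        obtain ⟨P3, hP3, hst3, hc3⟩ := fill hst2 (by omega) (by omega)
          (P.card + (b + 1) - P1.card) (by rw [hA1, hB1]; omega)
        refine ⟨P3, hP1.trans hP3, hP3 hm, Or.inr ⟨t + 1, A1, B1, kU', kD', hst3, ?_, ?_, ?_⟩, ?_⟩
        · rw [hA1, hB1]
          exact e11
        · omega
        · omega
        · left
          omega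

/-- A plan wins the strict game. -/
theorem not_wins {Inv : ℕ → ℕ → ℕ → ℕ → ℕ → Prop} (hp : Plan n b Inv)
    (hw : OMakerWins (strictRule b) P) : ¬ Cl b Inv P := by
  induction hw with
  | finished P hP hc =>
    intro h
    obtain ⟨A, B, kU, kD, hst⟩ := cl_st h
    exact hst.not_cycle hc
  | play P u v huv h1 h2 hfull hreply ih =>
    intro h
    obtain ⟨P', hP', hm, hcl, hc⟩ := cl_step hp h huv h1 h2
    have hsub : insert (u, v) P ⊆ P' := insert_subset hm hP'
    have hci : (insert (u, v) P).card = P.card + 1 := card_insert_of_notMem h1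
    obtain ⟨A, B, kU, kD, hst⟩ := cl_st hcl
    by_cases hund : undirected (insert (u, v) P) = ∅
    · exact hst.not_cycle ((hfull hund).mono hsub)
    · refine ih hund P' ⟨hst.legal, hsub, ?_⟩ hcl
      have hl1 : Legal (insert (u, v) P) := by
        intro x y hxy
        obtain ⟨g1, g2⟩ := hst.legal x y (hsub hxy)
        exact ⟨g1, fun h3 => g2 (hsub h3)⟩
      have t1 := total hl1
      have t2 := total hst.legal
      rw [card_sdiff_of_subset hsub, hci]
      show P'.card - (P.card + 1) = min b (undirected (insert (u, v) P)).card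
      rw [hci] at t1
      have h3 := card_le_card hsub
      rcases hc with hc | ⟨hc, hc2⟩
      · rw [Nat.min_eq_left (by omega)]
        omega
      · rw [Nat.min_eq_right (by omega)]
        omega

/-- OBreaker wins the strict game if there is a plan. -/
theorem breaker_of_plan {Inv : ℕ → ℕ → ℕ → ℕ → ℕ → Prop} (hn : 1 ≤ n)
    (h0 : Inv 0 0 0 0 0) (hp : Plan n b Inv) :
    ¬ OMakerWins (strictRule b) (∅ : Position n) := by
  intro hw
  refine not_wins hp hw (Or.inr ⟨0, ∅, ∅, 0, 0, st_empty, ?_, ?_, ?_⟩)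
  · rw [card_empty]
    exact h0
  · rw [card_empty]
    omega
  · rw [card_empty, Nat.mul_zero]

theorem fnl_empty (hnb : n ≤ b) : Fnl b (∅ : Position n) := by
  refine ⟨univ, ∅, 0, 0, ⟨?_, ?_, ?_, ?_, ?_, ?_, ?_, ?_, ?_⟩, ?_, ?_, ?_⟩
  · intro x
    simp
  · intro x y z h
    simp at h
  · intro x _
    simp
  · intro a _ c h
    simp at h
  · intro x y h
    simp at h
  · intro x y _ _
    left
    intro z h
    simp [mem_Dn] at h
  · intro x y _ _
    left
    intro z h
    simp [mem_Up] at h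
  · intro x _
    simp [Dn]
  · intro x hx
    simp at hx
  · intro x
    left
    exact mem_univ x
  · rw [card_univ, Fintype.card_fin]
    exact hnb
  · simp

/-- If `n ≤ b` then OBreaker wins. -/
theorem breaker_of_le (hnb : n ≤ b) : ¬ OMakerWins (strictRule b) (∅ : Position n) := by
  intro hw
  have hp : Plan n b (fun _ _ _ _ _ => False) :=
    ⟨fun _ _ _ _ _ h => h.elim, fun _ _ _ _ _ h => h.elim⟩
  exact not_wins hp hw (Or.inl (fnl_empty hnb))

end Pool.Agent.Helper4_OCS
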