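import Pool.Agent.Helper4_OCS.Game

/-!
# MP_64dd91_co: the potential and the numerical plan
-/

set_option autoImplicit false

namespace Pool.Agent.Helper4_OCS

/-- The potential of OBreaker: a minimum of six linear functions. -/
def Psi (k i t X : ℕ) : Prop :=
  3465 * t + 3465 * i ≤ X ∨ 3465 * t + 1155 * k + 2310 * i ≤ X ∨
  3465 * t + 2079 * k + 1848 * i ≤ X ∨ 3465 * t + 2871 * k + 1584 * i ≤ X ∨
  3465 * t + 3575 * k + 1408 * i ≤ X ∨ 3465 * t + 4215 * k + 1280 * i ≤ X

theorem psi_zero {k i t X : ℕ} (h : Psi k i t X) (hk : i ≤ k) : 3465 * t + 3465 * i ≤ X := by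
  unfold Psi at h
  omega

theorem psi_step {k k' i i' t X z : ℕ} (h : Psi k i t X) (hk : k' ≤ k + 1) (hz : i' + z = i)
    (h1 : 1 ≤ z) (h2 : k ≤ i → 2 ≤ z) (h3 : 2 * k ≤ i → 3 ≤ z) (h4 : 3 * k ≤ i → 4 ≤ z)
    (h5 : 4 * k ≤ i → 5 ≤ z) (h6 : 5 * k ≤ i → 6 ≤ z) : Psi k' i' (t + 1) X := by
  unfold Psi at h ⊢
  by_cases c1 : k ≤ i
  · by_cases c2 : 2 * k ≤ i
    · by_cases c3 : 3 * k ≤ i
      · by_cases c4 : 4 * k ≤ i
        · by_cases c5 : 5 * k ≤ i
          · have := h6 c5
            right; right; right; right; right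
            omega
          · have := h5 c4
            right; right; right; right; left
            omega
        · have := h4 c3
          right; right; right; left
          omega
      · have := h3 c2
        right; right; left
        omega
    · have := h2 c1
      right; left
      omega
  · left
    omega

theorem psi_three {k i i' t X z : ℕ} (h : Psi k i t X) (hz : i' + z = i)
    (h1 : 3 ≤ z) : Psi k i' (t + 1) X := by
  unfold Psi at h ⊢
  rcases h with h | h | h | h | h | h
  · left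
    omega
  · right; left
    omega
  · right; right; left
    omega
  · right; right; right; left
    omega
  · right; right; right; right; left
    omega
  · right; right; right; right; right
    omega

/-- The largest value with a property. -/
theorem exists_last {p : ℕ → Prop} {w0 W : ℕ} (h0 : p w0) (hW : ∀ w, W ≤ w → ¬ p w) :
    ∃ w, w0 ≤ w ∧ p w ∧ ¬ p (w + 1) := by
  by_contra hcon
  push Not at hcon
  have h1 : ∀ m, p (w0 + m) := by
    intro m
    induction m with
    | zero => exact h0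
    | succ m ih => exact hcon (w0 + m) (Nat.le_add_right _ _) ih
  exact hW (w0 + W) (by omega) (h1 W)

/-- The parameters. -/
structure Par (M b X n : ℕ) : Prop where
  M_ge : 400 ≤ M
  b_ge : 9 * M + 2 ≤ b
  b_le : b ≤ 9 * M + 10
  n_le : n ≤ b + M
  n_gt : b < n
  X_le : 2 * ((b + 1) * X) ≤ b * (b + 1) + M * (M - 1)
  X_ge : b * (b + 1) + M * (M - 1) < 2 * ((b + 1) * (X + 1))

variable {M b X n : ℕ}

theorem cap_psi (hp : Par M b X n) {r i t : ℕ} (hr : r + i = b) (h : t + i ≤ X) :
    2 * ((b + 1) * t) ≤ r * (r + 1) + M * (M - 1) := by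
  have h1 := hp.X_le
  have h2 : (b + 1) * (t + i) ≤ (b + 1) * X := Nat.mul_le_mul_left _ h
  have h3 : (b + 1) * (t + i) = (b + 1) * t + (b + 1) * i := by ring
  have h4 : b * (b + 1) ≤ r * (r + 1) + 2 * ((b + 1) * i) := by
    rw [← hr]
    nlinarith [Nat.zero_le i]
  omega

theorem cap_gain (hp : Par M b X n) {r i z k : ℕ} (hr : r + i = b) (h3 : 3 * M ≤ r)
    (hJ : 50 * (i * k) ≤ 459 * (M * M)) (hz : 2 ≤ z) (hi : i < z * k) :
    b + 1 ≤ z * (r + 1) := by
  have hM := hp.M_ge
  have hb := hp.b_le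
  have hb2 := hp.b_ge
  by_contra hcon
  push Not at hcon
  have h4 : z < 4 := by
    by_contra h
    push Not at h
    have : 4 * (3 * M + 1) ≤ z * (r + 1) := Nat.mul_le_mul h (by omega)
    omega
  have h5 : z = 2 ∨ z = 3 := by omega
  rcases h5 with rfl | rfl
  · have h6 : i * i ≤ i * (2 * k) := Nat.mul_le_mul_left _ hi.le
    have h7 : i * (2 * k) = 2 * (i * k) := by ring
    have h8 : (9 * M) * (9 * M) ≤ (2 * i) * (2 * i) := Nat.mul_le_mul (by omega) (by omega)
    have h9 : (9 * M) * (9 * M) = 81 * (M * M) := by ring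
    have h10 : (2 * i) * (2 * i) = 4 * (i * i) := by ring
    have h11 : 0 < M * M := Nat.mul_pos (by omega) (by omega)
    omega
  · have h6 : i * i ≤ i * (3 * k) := Nat.mul_le_mul_left _ hi.le
    have h7 : i * (3 * k) = 3 * (i * k) := by ring
    have h8 : (6 * M) * (6 * M) ≤ i * i := Nat.mul_le_mul (by omega) (by omega)
    have h9 : (6 * M) * (6 * M) = 36 * (M * M) := by ring
    have h11 : 0 < M * M := Nat.mul_pos (by omega) (by omega)
    omega

theorem cap_step (hp : Par M b X n) {r i i' z k k' t : ℕ} (hr : r + i = b) (h3 : 3 * M ≤ r)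
    (hJ : 50 * (i * k) ≤ 459 * (M * M)) (hz : 1 ≤ z) (hz2 : k ≤ i → 2 ≤ z) (hi : i < z * k)
    (hi' : i' + z = i) (hk : k ≤ k')
    (hc : 2 * ((b + 1) * t) ≤ r * (r + 1) + M * (M - 1)) (hpsi : Psi k' i' (t + 1) (3465 * X)) :
    2 * ((b + 1) * (t + 1)) ≤ (r + z) * (r + z + 1) + M * (M - 1) := by
  by_cases h1 : k ≤ i
  · have h2 := cap_gain hp hr h3 hJ (hz2 h1) hi
    have h4 : (b + 1) * (t + 1) = (b + 1) * t + (b + 1) := by ring
    have h5 : (r + z) * (r + z + 1) = r * (r + 1) + 2 * (z * r) + z * z + z := by ring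
    have h6 : z * (r + 1) = z * r + z := by ring
    have h7 : 1 * z ≤ z * z := Nat.mul_le_mul_right _ hz
    omega
  · have h2 := psi_zero hpsi (by omega)
    exact cap_psi hp (i := i') (by omega) (by omega)

theorem J_step {i i' z k : ℕ} (hi : i < z * k) (hi' : i' + z = i) : i' * (k + 1) ≤ i * k := by
  have h1 : (i' + z) * k = i' * k + z * k := by ring
  have h2 : i' * (k + 1) = i' * k + i' := by ring
  rw [hi'] at h1
  omega

/-- The last stage. -/
def StC (M b X t a q kU kD : ℕ) : Prop :=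
  q = M + kD ∧ kU + M = a ∧ 3 * M ≤ a ∧ ∃ i, a + kD + i = b ∧
    50 * (i * (M + kD + 1)) ≤ 459 * (M * M) ∧ Psi (M + kD + 1) i t (3465 * X) ∧
    2 * ((b + 1) * t) ≤ (a + kD) * (a + kD + 1) + M * (M - 1)

end Pool.Agent.Helper4_OCS
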