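import Pool.Agent.Helper4_OCS.Unit

/-!
# MP_64dd91_co: exact filling, typing of many vertices, one round
-/

set_option autoImplicit false

namespace Pool.Agent.Helper4_OCS

open Finset Pool.Agent.Helper51_OCG Pool.Agent.Helper15_OCG

variable {n : ℕ} {P : Position n} {A B : Finset (Fin n)} {kU kD : ℕ} {u v : Fin n}

theorem st_mono (h : St P A B kU kD) {kU' kD' : ℕ} (hU : kU ≤ kU') (hD : kD ≤ kD') :
    St P A B kU' kD' where
  irr := h.irr
  trans := h.trans
  disj := h.disj
  full := h.full
  loc := h.loc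
  nestD := h.nestD
  nestU := h.nestU
  envU x hx := (h.envU x hx).trans hU
  envD x hx := (h.envD x hx).trans hD

/-- The three parts of the position. -/
theorem card_ge (h : St P A B kU kD) :
    A.card * B.card + TU P B + TU (rev P) A ≤ P.card := by
  classical
  have h2 : TU P B = (P.filter fun e => e.2 ∉ B).card := by
    rw [TU, card_eq_sum_card_fiberwise (f := Prod.snd) (t := univ.filter fun x => x ∉ B)]
    · apply Finset.sum_congr rfl
      intro x hx
      rw [mem_filter] at hx
      apply card_bij' (fun z _ => (z, x)) (fun e _ => e.1)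
      · intro z hz
        simp only [mem_filter]
        exact ⟨⟨mem_Dn.mp hz, hx.2⟩, trivial⟩
      · intro e he
        simp only [mem_filter] at he
        obtain ⟨⟨h3, h4⟩, h5⟩ := he
        rw [mem_Dn, ← h5]
        exact h3
      · intro z hz
        rfl
      · intro e he
        simp only [mem_filter] at he
        rw [← he.2]
    · intro e he
      rw [mem_coe, mem_filter] at he ⊢
      exact ⟨mem_univ _, he.2⟩
  have h3 : TU (rev P) A = (P.filter fun e => e.1 ∉ A).card := by
    rw [TU, card_eq_sum_card_fiberwise (f := Prod.fst) (t := univ.filter fun x => x ∉ A)]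
    · apply Finset.sum_congr rfl
      intro x hx
      rw [mem_filter] at hx
      rw [Dn_rev]
      apply card_bij' (fun z _ => (x, z)) (fun e _ => e.2)
      · intro z hz
        simp only [mem_filter]
        exact ⟨⟨mem_Up.mp hz, hx.2⟩, trivial⟩
      · intro e he
        simp only [mem_filter] at he
        obtain ⟨⟨h3, h4⟩, h5⟩ := he
        rw [mem_Up, ← h5]
        exact h3
      · intro z hz
        rfl
      · intro e he
        simp only [mem_filter] at he
        rw [← he.2]
    · intro e he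
      rw [mem_coe, mem_filter] at he ⊢
      exact ⟨mem_univ _, he.2⟩
  have h4 : (A ×ˢ B) ∪ ((P.filter fun e => e.2 ∉ B) ∪ (P.filter fun e => e.1 ∉ A)) ⊆ P := by
    intro e he
    rw [mem_union, mem_union, mem_product, mem_filter, mem_filter] at he
    rcases he with he | he | he
    · exact h.full e.1 he.1 e.2 he.2
    · exact he.1
    · exact he.1
  have h5 : Disjoint (A ×ˢ B) ((P.filter fun e => e.2 ∉ B) ∪ (P.filter fun e => e.1 ∉ A)) := by
    rw [Finset.disjoint_left]
    intro e he he'
    rw [mem_product] at he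
    rw [mem_union, mem_filter, mem_filter] at he'
    rcases he' with he' | he'
    · exact he'.2 he.2
    · exact he'.2 he.1
  have h6 : Disjoint (P.filter fun e => e.2 ∉ B) (P.filter fun e => e.1 ∉ A) := by
    rw [Finset.disjoint_left]
    intro e he he'
    rw [mem_filter] at he he'
    rcases h.loc e.1 e.2 he.1 with h7 | h7
    · exact he'.2 h7
    · exact he.2 h7
  have h7 := card_le_card h4
  rw [card_union_of_disjoint h5, card_union_of_disjoint h6, card_product, ← h2, ← h3] at h7
  omega

/-- One more relation inside the class. -/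
theorem unit (h : St P A B kU kD) (hU : kU < A.card) (hD : kD < B.card)
    (hcap : 2 * P.card < 2 * (A.card * B.card) + kU * (kU + 1) + kD * (kD + 1)) :
    ∃ P' : Position n, P ⊆ P' ∧ St P' A B kU kD ∧ P'.card = P.card + 1 := by
  have h1 := card_ge h
  by_cases hc : 2 * TU P B < kU * (kU + 1)
  · exact unitU h hU hc
  · obtain ⟨Q, hQ, hst, hc⟩ := unitU h.rev hD (by omega)
    refine ⟨rev Q, ?_, hst.rev, ?_⟩
    · have := rev_mono hQ
      rwa [rev_rev] at this
    · rw [card_rev, hc, card_rev]

/-- EXACT FILLING. -/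
theorem fill (h : St P A B kU kD) (hU : kU < A.card) (hD : kD < B.card) (m : ℕ)
    (hcap : 2 * (P.card + m) ≤ 2 * (A.card * B.card) + kU * (kU + 1) + kD * (kD + 1)) :
    ∃ P' : Position n, P ⊆ P' ∧ St P' A B kU kD ∧ P'.card = P.card + m := by
  induction m with
  | zero => exact ⟨P, Subset.refl _, h, rfl⟩
  | succ m ih =>
    obtain ⟨P1, hP1, hst1, hc1⟩ := ih (by omega)
    obtain ⟨P2, hP2, hst2, hc2⟩ := unit hst1 hU hD (by omega)
    exact ⟨P2, hP1.trans hP2, hst2, by omega⟩

/-- Typing of many vertices. -/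
theorem typing (x : ℕ) : ∀ (y : ℕ) (P : Position n) (A B : Finset (Fin n)),
    St P A B kU kD → A.card + B.card + x + y ≤ n →
    ∃ (P' : Position n) (A' B' : Finset (Fin n)), P ⊆ P' ∧ St P' A' B' kU kD ∧
      A'.card = A.card + x ∧ B'.card = B.card + y ∧
      P'.card + A.card * B.card ≤ P.card + (A.card + x) * (B.card + y) := by
  induction x with
  | zero =>
    intro y
    induction y with
    | zero =>
      intro P A B h hn
      exact ⟨P, A, B, Subset.refl _, h, rfl, rfl, by simp⟩
    | succ y ih =>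
      intro P A B h hn
      obtain ⟨P1, A1, B1, hP1, hst1, hA1, hB1, hc1⟩ := ih P A B h (by omega)
      obtain ⟨z, hzA, hzB⟩ := exists_untyped (A := A1) (B := B1) (by omega)
      obtain ⟨P2, hP2, hst2, hc2⟩ := hst1.typeB hzA hzB
      refine ⟨P2, A1, insert z B1, hP1.trans hP2, hst2, hA1, ?_, ?_⟩
      · rw [card_insert_of_notMem hzB]
        omega
      · rw [hA1] at hc2
        have : (A.card + 0) * (B.card + (y + 1)) = (A.card + 0) * (B.card + y) + (A.card + 0) := by
          ring
        omega
  | succ x ih =>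
    intro y P A B h hn
    obtain ⟨P1, A1, B1, hP1, hst1, hA1, hB1, hc1⟩ := ih y P A B h (by omega)
    obtain ⟨z, hzA, hzB⟩ := exists_untyped (A := A1) (B := B1) (by omega)
    obtain ⟨P2, hP2, hst2, hc2⟩ := hst1.typeA hzA hzB
    refine ⟨P2, insert z A1, B1, hP1.trans hP2, hst2, ?_, hB1, ?_⟩
    · rw [card_insert_of_notMem hzA]
      omega
    · rw [hB1] at hc2
      have : (A.card + (x + 1)) * (B.card + y) = (A.card + x) * (B.card + y) + (B.card + y) := by
        ring
      omega

/-- The answer to an attack below `A` and the typing. -/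
theorem preU (h : St P A B kU kD) (huv : u ≠ v) (hu : u ∉ B) (hv : v ∉ B) (h1 : (u, v) ∉ P)
    (h2 : (v, u) ∉ P) {a' q' : ℕ} (ha : A.card + 1 ≤ a') (hq : B.card ≤ q')
    (hn : a' + q' ≤ n) :
    ∃ (P' : Position n) (A' B' : Finset (Fin n)), P ⊆ P' ∧ (u, v) ∈ P' ∧
      St P' A' B' (kU + 1) kD ∧ A'.card = a' ∧ B'.card = q' ∧
      P'.card + A.card * B.card ≤ P.card + (kU + 1 + a' * q') := by
  obtain ⟨P1, hP1, hm, hst1, hc1⟩ := h.left huv hu hv h1 h2
  by_cases huA : u ∈ A
  · rw [insert_eq_self.mpr huA] at hst1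
    rw [if_pos huA] at hc1
    obtain ⟨P2, A2, B2, hP2, hst2, hA2, hB2, hc2⟩ :=
      typing (a' - A.card) (q' - B.card) P1 A B hst1 (by omega)
    have hA : A.card + (a' - A.card) = a' := by omega
    have hB : B.card + (q' - B.card) = q' := by omega
    rw [hA, hB] at hc2
    rw [hA] at hA2
    rw [hB] at hB2
    exact ⟨P2, A2, B2, hP1.trans hP2, hP2 hm, hst2, hA2, hB2, by omega⟩
  · rw [if_neg huA] at hc1
    have hcA : (insert u A).card = A.card + 1 := card_insert_of_notMem huA
    obtain ⟨P2, A2, B2, hP2, hst2, hA2, hB2, hc2⟩ :=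
      typing (a' - (A.card + 1)) (q' - B.card) P1 (insert u A) B hst1 (by rw [hcA]; omega)
    rw [hcA] at hA2 hc2
    have hA : A.card + 1 + (a' - (A.card + 1)) = a' := by omega
    have hB : B.card + (q' - B.card) = q' := by omega
    rw [hA, hB] at hc2
    rw [hA] at hA2
    rw [hB] at hB2
    have he : (A.card + 1) * B.card = A.card * B.card + B.card := by ring
    exact ⟨P2, A2, B2, hP1.trans hP2, hP2 hm, hst2, hA2, hB2, by omega⟩

/-- The answer to an attack above `B` and the typing. -/
theorem preD (h : St P A B kU kD) (huv : u ≠ v) (hu : u ∉ A) (hv : v ∉ A) (h1 : (u, v) ∉ P)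
    (h2 : (v, u) ∉ P) {a' q' : ℕ} (ha : A.card ≤ a') (hq : B.card + 1 ≤ q')
    (hn : a' + q' ≤ n) :
    ∃ (P' : Position n) (A' B' : Finset (Fin n)), P ⊆ P' ∧ (u, v) ∈ P' ∧
      St P' A' B' kU (kD + 1) ∧ A'.card = a' ∧ B'.card = q' ∧
      P'.card + A.card * B.card ≤ P.card + (kD + 1 + a' * q') := by
  have e1 : B.card * A.card = A.card * B.card := Nat.mul_comm _ _
  have e2 : q' * a' = a' * q' := Nat.mul_comm _ _
  obtain ⟨Q, B', A', hQ, hm, hst, hB', hA', hc⟩ := preU (u := v) (v := u) (a' := q') (q' := a')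
    h.rev huv.symm hv hu
    (fun h3 => h1 (mem_rev.mp h3)) (fun h3 => h2 (mem_rev.mp h3)) hq ha (by omega)
  refine ⟨rev Q, A', B', ?_, mem_rev.mpr hm, hst.rev, hA', hB', ?_⟩
  · have := rev_mono hQ
    rwa [rev_rev] at this
  · rw [card_rev] at hc ⊢
    omega

end Pool.Agent.Helper4_OCS
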