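import Pool.Agent.Helper4_OCS.StageB

/-!
# MP_64dd91_co: the first stage
-/

set_option autoImplicit false

namespace Pool.Agent.Helper4_OCS

variable {M b X n t a q kU kD : ℕ}

/-- Admissible shapes below the cap `c`. -/
def Shape (c a q : ℕ) : Prop := ((q = a ∨ q = a + 1) ∧ q ≤ c) ∨ (q = c ∧ c ≤ a + 1)

theorem greedy (c Y : ℕ) : ∀ m a0 q0, m + a0 * q0 = Y → Shape c a0 q0 → 1 ≤ q0 →
    ∃ a' q', Shape c a' q' ∧ a0 ≤ a' ∧ q0 ≤ q' ∧ a' * q' ≤ Y ∧ Y < a' * q' + q' := by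
  intro m
  induction m using Nat.strong_induction_on with
  | _ m ih =>
    intro a0 q0 hm hs hq
    by_cases h : Y < a0 * q0 + q0
    · exact ⟨a0, q0, hs, le_refl _, le_refl _, by omega, h⟩
    · push Not at h
      rcases hs with ⟨hs1 | hs1, hs2⟩ | ⟨hs1, hs2⟩
      · subst hs1
        rcases Nat.lt_or_ge q0 c with h1 | h1
        · have e : q0 * (q0 + 1) = q0 * q0 + q0 := by ring
          obtain ⟨a', q', g1, g2, g3, g4, g5⟩ := ih (m - q0) (by omega) q0 (q0 + 1) (by omega)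
            (Or.inl ⟨Or.inr rfl, h1⟩) (by omega)
          exact ⟨a', q', g1, by omega, by omega, g4, g5⟩
        · have e : (q0 + 1) * q0 = q0 * q0 + q0 := by ring
          obtain ⟨a', q', g1, g2, g3, g4, g5⟩ := ih (m - q0) (by omega) (q0 + 1) q0 (by omega)
            (Or.inr ⟨by omega, by omega⟩) (by omega)
          exact ⟨a', q', g1, by omega, by omega, g4, g5⟩
      · have e : (a0 + 1) * q0 = a0 * q0 + q0 := by ring
        obtain ⟨a', q', g1, g2, g3, g4, g5⟩ := ih (m - q0) (by omega) (a0 + 1) q0 (by omega)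
          (Or.inl ⟨Or.inl hs1, hs2⟩) (by omega)
        exact ⟨a', q', g1, by omega, by omega, g4, g5⟩
      · have e : (a0 + 1) * q0 = a0 * q0 + q0 := by ring
        obtain ⟨a', q', g1, g2, g3, g4, g5⟩ := ih (m - q0) (by omega) (a0 + 1) q0 (by omega)
          (Or.inr ⟨hs1, by omega⟩) (by omega)
        exact ⟨a', q', g1, by omega, by omega, g4, g5⟩

/-- The first stage. -/
def StA (M b t a q kU kD : ℕ) : Prop :=
  (q = a ∨ q = a + 1) ∧ q < M + kD ∧ kU = 2 * a / 3 ∧ kD ≤ t ∧ 5 * t ≤ M ∧ 3 * t ≤ a ∧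
    ((a ≤ M ∧ 18 * ((b + 1) * t) + 2 * a + 3 * (M * kD) ≤
        18 * (a * q) + 4 * (a * a) + 9 * (kD * (kD + 1))) ∨
      (M < a ∧ 18 * ((b + 1) * t) + 2 * a + 3 * (M * (M + kD - a)) ≤
        18 * (a * q) + 4 * (a * a) + 9 * (kD * (kD + 1))))

theorem stA_S (h : StA M b t a q kU kD) : 18 * ((b + 1) * t) + 2 * a ≤
    18 * (a * q) + 4 * (a * a) + 9 * (kD * (kD + 1)) := by
  obtain ⟨-, -, -, -, -, -, ⟨-, h⟩ | ⟨-, h⟩⟩ := h
  · omega
  · omega

theorem stA_t (hp : Par M b X n) (h : StA M b t a q kU kD) : 5 * (t + 1) ≤ M := by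
  have hS := stA_S h
  obtain ⟨hq, hqc, hkU, hd, ht, -, -⟩ := h
  have hM := hp.M_ge
  have hb := hp.b_ge
  by_contra hcon
  have h1 : (9 * M) * (M - 4) ≤ (b + 1) * (5 * t) := Nat.mul_le_mul (by omega) (by omega)
  have h2 : (9 * M) * (M - 4) = 9 * (M * M) - 36 * M := by
    rw [Nat.mul_sub]
    congr 1 <;> ring
  have h3 : (b + 1) * (5 * t) = 5 * ((b + 1) * t) := by ring
  have h4 : (5 * a) * (5 * q) ≤ (6 * M) * (6 * M) := Nat.mul_le_mul (by omega) (by omega)
  have h5 : (5 * a) * (5 * a) ≤ (6 * M) * (6 * M) := Nat.mul_le_mul (by omega) (by omega)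
  have h6 : (5 * kD) * (5 * kD) ≤ M * M := Nat.mul_le_mul (by omega) (by omega)
  have e4 : (5 * a) * (5 * q) = 25 * (a * q) := by ring
  have e5 : (5 * a) * (5 * a) = 25 * (a * a) := by ring
  have e6 : (5 * kD) * (5 * kD) = 25 * (kD * kD) := by ring
  have e7 : (6 * M) * (6 * M) = 36 * (M * M) := by ring
  have e8 : kD * (kD + 1) = kD * kD + kD := by ring
  have e9 : 400 * M ≤ M * M := Nat.mul_le_mul_right _ hM
  omega

theorem X_bound (hp : Par M b X n) : 91 * M ≤ 20 * X := by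
  by_contra hcon
  have hM := hp.M_ge
  have h1 := hp.X_ge
  have h2 : (b + 1) * (20 * (X + 1)) ≤ (b + 1) * (91 * M + 19) :=
    Nat.mul_le_mul_left _ (by omega)
  have h3 : (b + 1) * (20 * (X + 1)) = 20 * ((b + 1) * (X + 1)) := by ring
  obtain ⟨c, hc⟩ : ∃ c, b = 9 * M + c := ⟨b - 9 * M, by have := hp.b_ge; omega⟩
  obtain ⟨m, hm⟩ : ∃ m, M = m + 1 := ⟨M - 1, by omega⟩
  have h5 : M * (M - 1) + M = M * M := by
    rw [hm, Nat.add_sub_cancel]
    ring
  have h6 : b * (b + 1) = 81 * (M * M) + 18 * (M * c) + c * c + 9 * M + c := by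
    rw [hc]
    ring
  have h7 : (b + 1) * (91 * M + 19) =
      819 * (M * M) + 91 * (M * c) + 262 * M + 19 * c + 19 := by
    rw [hc]
    ring
  have h4 : c ≤ 10 := by
    have := hp.b_le
    omega
  have h8 : c * c ≤ 10 * c := Nat.mul_le_mul_right _ h4
  have h9 : 0 ≤ M * c := Nat.zero_le _
  have h10 : 400 * M ≤ M * M := Nat.mul_le_mul_right _ hM
  omega

theorem J_bound (hM : 400 ≤ M) {i d : ℕ} (hd : 5 * d ≤ M) (hi : i + 2 * d ≤ 8 * M + 11) :
    50 * (i * (M + d + 1)) ≤ 459 * (M * M) := by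
  have h1 : i * (M + d + 1) ≤ (8 * M + 11 - 2 * d) * (M + d + 1) :=
    Nat.mul_le_mul_right _ (by omega)
  obtain ⟨e, he⟩ : ∃ e, M = 5 * d + e := ⟨M - 5 * d, by omega⟩
  have h2 : 8 * M + 11 - 2 * d = 38 * d + 8 * e + 11 := by omega
  have h3 : M + d + 1 = 6 * d + e + 1 := by omega
  rw [h2, h3] at h1
  rw [h3]
  have h4 : (38 * d + 8 * e + 11) * (6 * d + e + 1) =
      228 * (d * d) + 86 * (d * e) + 8 * (e * e) + 104 * d + 19 * e + 11 := by ring
  have h5 : M * M = 25 * (d * d) + 10 * (d * e) + e * e := by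
    rw [he]
    ring
  have h6 : 400 * M ≤ M * M := Nat.mul_le_mul_right _ hM
  omega

/-- The end of a round in the first stage. -/
theorem afterA (hp : Par M b X n) {d : ℕ} (hs : Shape (M + d) a q) (hd : d ≤ t)
    (ht : 5 * t ≤ M) (h3 : 3 * t ≤ a) (hP : 2 * (a * q) ≤ 3 * (M * M))
    (hH1 : a ≤ M → 18 * ((b + 1) * t) + 2 * a + 3 * (M * d) ≤
        18 * (a * q) + 4 * (a * a) + 9 * (d * (d + 1)))
    (hH2 : M < a → 18 * ((b + 1) * t) + 2 * a + 3 * (M * (M + d - a)) ≤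
        18 * (a * q) + 4 * (a * a) + 9 * (d * (d + 1))) :
    a + q < n ∧ a < 3 * M ∧
      2 * ((b + 1) * t) ≤ 2 * (a * q) + K M a * (K M a + 1) + d * (d + 1) ∧
      (StA M b t a q (K M a) d ∨ StB M b X t a q (K M a) d) := by
  have hM := hp.M_ge
  have hn := hp.n_gt
  have hb := hp.b_ge
  have hb2 := hp.b_le
  have hS : 18 * ((b + 1) * t) + 2 * a ≤ 18 * (a * q) + 4 * (a * a) + 9 * (d * (d + 1)) := by
    rcases Nat.lt_or_ge M a with h | h
    · have := hH2 h
      omega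
    · have := hH1 h
      omega
  rcases Nat.lt_or_ge q (M + d) with h | h
  · have hq : q = a ∨ q = a + 1 := by
      rcases hs with ⟨h1, -⟩ | ⟨h1, -⟩
      · exact h1
      · omega
    have ha : a < 3 * M := by omega
    refine ⟨by omega, ha, ?_, Or.inl ⟨hq, h, K_lt ha, hd, ht, h3, ?_⟩⟩
    · rw [K_lt ha]
      exact capB hS
    · rcases Nat.lt_or_ge M a with h | h
      · exact Or.inr ⟨h, hH2 h⟩
      · exact Or.inl ⟨h, hH1 h⟩
  · have hq : q = M + d ∧ q ≤ a + 1 := by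
      rcases hs with ⟨h1, h2⟩ | ⟨h1, h2⟩
      · exact ⟨by omega, by omega⟩
      · exact ⟨h1, by omega⟩
    obtain ⟨hq1, hq2⟩ := hq
    have ha2 : 2 * a ≤ 3 * M := by
      by_contra hcon
      have h1 : (3 * M + 1) * M ≤ (2 * a) * q := Nat.mul_le_mul (by omega) (by omega)
      have h2 : (3 * M + 1) * M = 3 * (M * M) + M := by ring
      have h3 : (2 * a) * q = 2 * (a * q) := by ring
      omega
    have ha : a < 3 * M := by omega
    obtain ⟨i, hi⟩ : ∃ i, a + d + i = b := ⟨b - a - d, by omega⟩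
    have hX := X_bound hp
    refine ⟨by omega, ha, ?_, Or.inr ⟨hq1, hq2, ha, K_lt ha, by omega, ⟨i, hi, ?_, ?_⟩, hS⟩⟩
    · rw [K_lt ha]
      exact capB hS
    · exact J_bound hM (by omega) (by omega)
    · unfold Psi
      right; right; right; right; right
      omega

theorem shape_min {c a0 : ℕ} : Shape c a0 (min a0 c) := by
  rcases Nat.lt_or_ge c a0 with h | h
  · rw [Nat.min_eq_right h.le]
    exact Or.inr ⟨rfl, by omega⟩
  · rw [Nat.min_eq_left h]
    exact Or.inl ⟨Or.inl rfl, h⟩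

theorem shape_le {c : ℕ} (h : Shape c a q) : q ≤ a + 1 := by
  rcases h with ⟨h, -⟩ | ⟨h, h1⟩ <;> omega

theorem roundU (hp : Par M b X n) (h : StA M b t a q kU kD) {a0 : ℕ} (h0 : a + 3 ≤ a0)
    (hcost : kU + 1 + a0 * min a0 (M + kD) ≤ b + 1 + a * q)
    (hG1 : a ≤ M → ∀ y, a0 ≤ a + y → 30 * a + 20 * y + 18 ≤ 8 * (a * y) + 4 * (y * y))
    (hG2 : M < a → ∀ y, a0 ≤ a + y →
      30 * a + 20 * y + 18 + 3 * (M * (M + kD - (a + y))) ≤
        8 * (a * y) + 4 * (y * y) + 3 * (M * (M + kD - a))) :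
    ∃ a' q' kU' kD',
      a + 1 ≤ a' ∧ q ≤ q' ∧ a' + q' ≤ n ∧ kU + 1 ≤ kU' ∧ kD ≤ kD' ∧ kU' < a' ∧ kD' < q' ∧
      kU + 1 + a' * q' ≤ b + 1 + a * q ∧
      ((a' + q' = n ∧ a' ≤ b ∧ q' ≤ b) ∨
        (a' + q' < n ∧
          2 * ((b + 1) * (t + 1)) ≤ 2 * (a' * q') + kU' * (kU' + 1) + kD' * (kD' + 1) ∧
          (StA M b (t + 1) a' q' kU' kD' ∨ StB M b X (t + 1) a' q' kU' kD'))) := by
  have ht1 := stA_t hp h
  obtain ⟨hq, hqc, hkU, hd, ht, h3, hH⟩ := h
  have hM := hp.M_ge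
  have hb := hp.b_ge
  have hb2 := hp.b_le
  obtain ⟨q0, hq0⟩ : ∃ q0, q0 = min a0 (M + kD) := ⟨_, rfl⟩
  rw [← hq0] at hcost
  have hs0 : Shape (M + kD) a0 q0 := by
    rw [hq0]
    exact shape_min
  obtain ⟨a', q', hs', ha', hq', hc1, hc2⟩ := greedy (M + kD) (b + 1 + a * q - (kU + 1))
    (b + 1 + a * q - (kU + 1) - a0 * q0) a0 q0 (by omega) hs0 (by omega)
  have hqa := shape_le hs'
  obtain ⟨y, hy⟩ : ∃ y, a' = a + y := ⟨a' - a, by omega⟩
  have e1 : (b + 1) * (t + 1) = (b + 1) * t + (b + 1) := by ring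
  have e2 : a' * a' = a * a + 2 * (a * y) + y * y := by
    rw [hy]
    ring
  have h4 : (5 * a) * (5 * q) ≤ (6 * M) * (6 * M) := Nat.mul_le_mul (by omega) (by omega)
  have e4 : (5 * a) * (5 * q) = 25 * (a * q) := by ring
  have e7 : (6 * M) * (6 * M) = 36 * (M * M) := by ring
  have e9 : 400 * M ≤ M * M := Nat.mul_le_mul_right _ hM
  have hH1 : a' ≤ M → 18 * ((b + 1) * (t + 1)) + 2 * a' + 3 * (M * kD) ≤
      18 * (a' * q') + 4 * (a' * a') + 9 * (kD * (kD + 1)) := by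
    intro h5
    rcases hH with ⟨h6, h7⟩ | ⟨h6, h7⟩
    · have := hG1 h6 y (by omega)
      omega
    · omega
  have hH2 : M < a' → 18 * ((b + 1) * (t + 1)) + 2 * a' + 3 * (M * (M + kD - a')) ≤
      18 * (a' * q') + 4 * (a' * a') + 9 * (kD * (kD + 1)) := by
    intro h5
    rcases hH with ⟨h6, h7⟩ | ⟨h6, h7⟩
    · have := hG1 h6 y (by omega)
      have h8 : M * (M + kD - a') ≤ M * kD := Nat.mul_le_mul_left _ (by omega)
      omega
    · have := hG2 h6 y (by omega)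
      rw [← hy] at this
      omega
  obtain ⟨g1, g2, g3, g4⟩ := afterA (X := X) (n := n) (t := t + 1) (a := a') (q := q') (d := kD)
    hp hs' (by omega) (by omega) (by omega) (by omega) hH1 hH2
  refine ⟨a', q', K M a', kD, by omega, by omega, by omega, ?_, le_refl _, ?_, by omega,
    by omega, Or.inr ⟨g1, g3, g4⟩⟩
  · rw [K_lt g2]
    omega
  · rw [K_lt g2]
    omega

theorem gain_six {y : ℕ} (h : 6 ≤ y) : 30 * a + 20 * y + 18 ≤ 8 * (a * y) + 4 * (y * y) := by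
  have h1 : a * 6 ≤ a * y := Nat.mul_le_mul_left _ h
  have h2 : 6 * y ≤ y * y := Nat.mul_le_mul_right _ h
  omega

theorem gain_four {y : ℕ} (h : 4 ≤ y) (ha : 17 ≤ a) :
    30 * a + 20 * y + 18 ≤ 8 * (a * y) + 4 * (y * y) := by
  obtain ⟨u, rfl⟩ : ∃ u, y = u + 4 := ⟨y - 4, by omega⟩
  have h1 : a * (u + 4) = a * u + 4 * a := by ring
  have h2 : (u + 4) * (u + 4) = u * u + 8 * u + 16 := by ring
  omega

theorem stA_U (hp : Par M b X n) (h : StA M b t a q kU kD) :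
    ∃ a' q' kU' kD',
      a + 1 ≤ a' ∧ q ≤ q' ∧ a' + q' ≤ n ∧ kU + 1 ≤ kU' ∧ kD ≤ kD' ∧ kU' < a' ∧ kD' < q' ∧
      kU + 1 + a' * q' ≤ b + 1 + a * q ∧
      ((a' + q' = n ∧ a' ≤ b ∧ q' ≤ b) ∨
        (a' + q' < n ∧
          2 * ((b + 1) * (t + 1)) ≤ 2 * (a' * q') + kU' * (kU' + 1) + kD' * (kD' + 1) ∧
          (StA M b (t + 1) a' q' kU' kD' ∨ StB M b X (t + 1) a' q' kU' kD'))) := by
  have hM := hp.M_ge
  have hb := hp.b_ge
  have h' := h
  obtain ⟨hq, hqc, hkU, hd, ht, h3, hH⟩ := h'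
  have haq : a * a ≤ a * q := Nat.mul_le_mul_left _ (by omega)
  rcases Nat.lt_or_ge a 17 with h1 | h1
  · refine roundU hp h (a0 := a + 6) (by omega) ?_ ?_ ?_
    · have h2 : (a + 6) * min (a + 6) (M + kD) ≤ (a + 6) * (a + 6) :=
        Nat.mul_le_mul_left _ (Nat.min_le_left _ _)
      have h4 : (a + 6) * (a + 6) ≤ 22 * 22 := Nat.mul_le_mul (by omega) (by omega)
      omega
    · intro _ y hy
      exact gain_six (by omega)
    · intro h2
      omega
  · rcases Nat.lt_or_ge M a with h2 | h2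
    · rcases Nat.lt_or_ge (a + 2) (M + kD) with h4 | h4
      · refine roundU hp h (a0 := a + 3) (by omega) ?_ ?_ ?_
        · have h5 : (a + 3) * min (a + 3) (M + kD) ≤ (a + 3) * (a + 3) :=
            Nat.mul_le_mul_left _ (Nat.min_le_left _ _)
          have h6 : (a + 3) * (a + 3) = a * a + 6 * a + 9 := by ring
          omega
        · intro h5
          omega
        · intro _ y hy
          rcases Nat.lt_or_ge y 4 with h5 | h5
          · have h6 : y = 3 := by omega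
            subst h6
            have h7 : M + kD - a = (M + kD - (a + 3)) + 3 := by omega
            have h8 : M * (M + kD - a) = M * (M + kD - (a + 3)) + 3 * M := by
              rw [h7]
              ring
            omega
          · have h6 := gain_four h5 h1
            have h7 : M * (M + kD - (a + y)) ≤ M * (M + kD - a) :=
              Nat.mul_le_mul_left _ (by omega)
            omega
      · refine roundU hp h (a0 := a + 4) (by omega) ?_ ?_ ?_
        · have h5 : (a + 4) * min (a + 4) (M + kD) ≤ (a + 4) * (a + 2) :=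
            Nat.mul_le_mul_left _ ((Nat.min_le_right _ _).trans h4)
          have h6 : (a + 4) * (a + 2) = a * a + 6 * a + 8 := by ring
          omega
        · intro h5
          omega
        · intro _ y hy
          have h6 := gain_four (y := y) (by omega) h1
          have h7 : M * (M + kD - (a + y)) ≤ M * (M + kD - a) :=
            Nat.mul_le_mul_left _ (by omega)
          omega
    · refine roundU hp h (a0 := a + 4) (by omega) ?_ ?_ ?_
      · have h5 : (a + 4) * min (a + 4) (M + kD) ≤ (a + 4) * (a + 4) :=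
          Nat.mul_le_mul_left _ (Nat.min_le_left _ _)
        have h6 : (a + 4) * (a + 4) = a * a + 8 * a + 16 := by ring
        omega
      · intro _ y hy
        exact gain_four (by omega) h1
      · intro h5
        omega

theorem roundD (hp : Par M b X n) (h : StA M b t a q kU kD) {a0 : ℕ} (h0 : a + 3 ≤ a0)
    (hcost : kD + 1 + a0 * min a0 (M + kD + 1) ≤ b + 1 + a * q)
    (hG1 : a ≤ M → ∀ y, a0 ≤ a + y →
      b + 1 ≤ kD + 2 * (a * y) + 2 * a + y * y + 2 * y + 1 →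
      18 * a + 20 * y + 3 * M ≤ 8 * (a * y) + 4 * (y * y))
    (hG2 : M < a → ∀ y, a0 ≤ a + y → 18 * a + 20 * y ≤ 8 * (a * y) + 4 * (y * y)) :
    ∃ a' q' kU' kD',
      a ≤ a' ∧ q + 1 ≤ q' ∧ a' + q' ≤ n ∧ kU ≤ kU' ∧ kD + 1 ≤ kD' ∧ kU' < a' ∧ kD' < q' ∧
      kD + 1 + a' * q' ≤ b + 1 + a * q ∧
      ((a' + q' = n ∧ a' ≤ b ∧ q' ≤ b) ∨
        (a' + q' < n ∧
          2 * ((b + 1) * (t + 1)) ≤ 2 * (a' * q') + kU' * (kU' + 1) + kD' * (kD' + 1) ∧
          (StA M b (t + 1) a' q' kU' kD' ∨ StB M b X (t + 1) a' q' kU' kD'))) := by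
  have ht1 := stA_t hp h
  obtain ⟨hq, hqc, hkU, hd, ht, h3, hH⟩ := h
  have hM := hp.M_ge
  have hb := hp.b_ge
  have hb2 := hp.b_le
  obtain ⟨q0, hq0⟩ : ∃ q0, q0 = min a0 (M + kD + 1) := ⟨_, rfl⟩
  rw [← hq0] at hcost
  have hs0 : Shape (M + kD + 1) a0 q0 := by
    rw [hq0]
    exact shape_min
  obtain ⟨a', q', hs', ha', hq', hc1, hc2⟩ := greedy (M + kD + 1) (b + 1 + a * q - (kD + 1))
    (b + 1 + a * q - (kD + 1) - a0 * q0) a0 q0 (by omega) hs0 (by omega)
  have hqa := shape_le hs'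
  obtain ⟨y, hy⟩ : ∃ y, a' = a + y := ⟨a' - a, by omega⟩
  have e1 : (b + 1) * (t + 1) = (b + 1) * t + (b + 1) := by ring
  have e2 : a' * a' = a * a + 2 * (a * y) + y * y := by
    rw [hy]
    ring
  have e3 : (kD + 1) * (kD + 1 + 1) = kD * (kD + 1) + 2 * kD + 2 := by ring
  have h4 : (5 * a) * (5 * q) ≤ (6 * M) * (6 * M) := Nat.mul_le_mul (by omega) (by omega)
  have e4 : (5 * a) * (5 * q) = 25 * (a * q) := by ring
  have e7 : (6 * M) * (6 * M) = 36 * (M * M) := by ring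
  have e9 : 400 * M ≤ M * M := Nat.mul_le_mul_right _ hM
  have haq : a * a ≤ a * q := Nat.mul_le_mul_left _ (by omega)
  have hN : b + 1 ≤ kD + 2 * (a * y) + 2 * a + y * y + 2 * y + 1 := by
    have f1 : a' * q' + q' ≤ a' * a' + 2 * a' + 1 := by
      have f2 : (a' + 1) * q' ≤ (a' + 1) * (a' + 1) := Nat.mul_le_mul_left _ hqa
      have f3 : (a' + 1) * q' = a' * q' + q' := by ring
      have f4 : (a' + 1) * (a' + 1) = a' * a' + 2 * a' + 1 := by ring
      omega
    omega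
  have e5 : M * (kD + 1) = M * kD + M := by ring
  have hH1 : a' ≤ M → 18 * ((b + 1) * (t + 1)) + 2 * a' + 3 * (M * (kD + 1)) ≤
      18 * (a' * q') + 4 * (a' * a') + 9 * ((kD + 1) * (kD + 1 + 1)) := by
    intro h5
    rcases hH with ⟨h6, h7⟩ | ⟨h6, h7⟩
    · have := hG1 h6 y (by omega) hN
      omega
    · omega
  have hH2 : M < a' → 18 * ((b + 1) * (t + 1)) + 2 * a' + 3 * (M * (M + (kD + 1) - a')) ≤
      18 * (a' * q') + 4 * (a' * a') + 9 * ((kD + 1) * (kD + 1 + 1)) := by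
    intro h5
    rcases hH with ⟨h6, h7⟩ | ⟨h6, h7⟩
    · have := hG1 h6 y (by omega) hN
      have h8 : M * (M + (kD + 1) - a') ≤ M * kD := Nat.mul_le_mul_left _ (by omega)
      omega
    · have := hG2 h6 y (by omega)
      have h8 : M * (M + (kD + 1) - a') ≤ M * (M + kD - a) := Nat.mul_le_mul_left _ (by omega)
      omega
  obtain ⟨g1, g2, g3, g4⟩ := afterA (X := X) (n := n) (t := t + 1) (a := a') (q := q')
    (d := kD + 1) hp hs' (by omega) (by omega) (by omega) (by omega) hH1 hH2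
  refine ⟨a', q', K M a', kD + 1, by omega, by omega, by omega, ?_, le_refl _, ?_, by omega,
    by omega, Or.inr ⟨g1, g3, g4⟩⟩
  · rw [K_lt g2]
    omega
  · rw [K_lt g2]
    omega

theorem stA_D (hp : Par M b X n) (h : StA M b t a q kU kD) :
    ∃ a' q' kU' kD',
      a ≤ a' ∧ q + 1 ≤ q' ∧ a' + q' ≤ n ∧ kU ≤ kU' ∧ kD + 1 ≤ kD' ∧ kU' < a' ∧ kD' < q' ∧
      kD + 1 + a' * q' ≤ b + 1 + a * q ∧
      ((a' + q' = n ∧ a' ≤ b ∧ q' ≤ b) ∨
        (a' + q' < n ∧
          2 * ((b + 1) * (t + 1)) ≤ 2 * (a' * q') + kU' * (kU' + 1) + kD' * (kD' + 1) ∧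
          (StA M b (t + 1) a' q' kU' kD' ∨ StB M b X (t + 1) a' q' kU' kD'))) := by
  have hM := hp.M_ge
  have hb := hp.b_ge
  have h' := h
  obtain ⟨hq, hqc, hkU, hd, ht, h3, hH⟩ := h'
  have haq : a * a ≤ a * q := Nat.mul_le_mul_left _ (by omega)
  rcases Nat.lt_or_ge M a with h2 | h2
  · refine roundD hp h (a0 := a + 3) (by omega) ?_ ?_ ?_
    · have h5 : (a + 3) * min (a + 3) (M + kD + 1) ≤ (a + 3) * (a + 3) :=
        Nat.mul_le_mul_left _ (Nat.min_le_left _ _)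
      have h6 : (a + 3) * (a + 3) = a * a + 6 * a + 9 := by ring
      omega
    · intro h5
      omega
    · intro _ y hy
      obtain ⟨u, rfl⟩ : ∃ u, y = u + 3 := ⟨y - 3, by omega⟩
      have h1 : a * (u + 3) = a * u + 3 * a := by ring
      have h4 : (u + 3) * (u + 3) = u * u + 6 * u + 9 := by ring
      omega
  · refine roundD hp h (a0 := a + 4) (by omega) ?_ ?_ ?_
    · have h5 : (a + 4) * min (a + 4) (M + kD + 1) ≤ (a + 4) * (a + 4) :=
        Nat.mul_le_mul_left _ (Nat.min_le_left _ _)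
      have h6 : (a + 4) * (a + 4) = a * a + 8 * a + 16 := by ring
      omega
    · intro _ y hy hN
      rcases Nat.lt_or_ge y 26 with h5 | h5
      · omega
      · have h6 : a * 26 ≤ a * y := Nat.mul_le_mul_left _ h5
        have h7 : 26 * y ≤ y * y := Nat.mul_le_mul_right _ h5
        omega
    · intro h5
      omega

end Pool.Agent.Helper4_OCS
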