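import Pool.Agent.Helper4_OCS.StageC

/-!
# MP_64dd91_co: the middle stage
-/

set_option autoImplicit false

namespace Pool.Agent.Helper4_OCS

variable {M b X n t a q kU kD : ℕ}

/-- The middle stage. -/
def StB (M b X t a q kU kD : ℕ) : Prop :=
  q = M + kD ∧ q ≤ a + 1 ∧ a < 3 * M ∧ kU = 2 * a / 3 ∧ 4 * kD ≤ 3 * M ∧
    (∃ i, a + kD + i = b ∧ 50 * (i * (M + kD + 1)) ≤ 459 * (M * M) ∧
      Psi (M + kD + 1) i t (3465 * X)) ∧
    18 * ((b + 1) * t) + 2 * a ≤ 18 * (a * q) + 4 * (a * a) + 9 * (kD * (kD + 1))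

/-- The envelope parameter of the up sets. -/
def K (M a : ℕ) : ℕ := if a < 3 * M then 2 * a / 3 else a - M

theorem even_tri (d : ℕ) : ∃ c, d * (d + 1) = 2 * c := by
  obtain ⟨c, hc⟩ := Nat.even_mul_succ_self d
  exact ⟨c, by omega⟩

theorem capB {T P a d : ℕ}
    (h : 18 * T + 2 * a ≤ 18 * P + 4 * (a * a) + 9 * (d * (d + 1))) :
    2 * T ≤ 2 * P + (2 * a / 3) * (2 * a / 3 + 1) + d * (d + 1) := by
  obtain ⟨c, hc⟩ := even_tri d
  rw [hc] at h ⊢
  obtain ⟨m, hm⟩ : ∃ m, m = a / 3 := ⟨_, rfl⟩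
  have h1 : a = 3 * m ∨ a = 3 * m + 1 ∨ a = 3 * m + 2 := by omega
  rcases h1 with rfl | rfl | rfl
  · have e1 : 2 * (3 * m) / 3 = 2 * m := by omega
    have e2 : (3 * m) * (3 * m) = 9 * (m * m) := by ring
    have e3 : (2 * m) * (2 * m + 1) = 4 * (m * m) + 2 * m := by ring
    rw [e1, e3]
    rw [e2] at h
    omega
  · have e1 : 2 * (3 * m + 1) / 3 = 2 * m := by omega
    have e2 : (3 * m + 1) * (3 * m + 1) = 9 * (m * m) + 6 * m + 1 := by ring
    have e3 : (2 * m) * (2 * m + 1) = 4 * (m * m) + 2 * m := by ring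
    rw [e1, e3]
    rw [e2] at h
    omega
  · have e1 : 2 * (3 * m + 2) / 3 = 2 * m + 1 := by omega
    have e2 : (3 * m + 2) * (3 * m + 2) = 9 * (m * m) + 12 * m + 4 := by ring
    have e3 : (2 * m + 1) * (2 * m + 1 + 1) = 4 * (m * m) + 6 * m + 2 := by ring
    rw [e1, e3]
    rw [e2] at h
    omega

theorem capC {T P a d M : ℕ} (ha : 3 * M ≤ a)
    (h : 18 * T + 2 * a ≤ 18 * P + 4 * (a * a) + 9 * (d * (d + 1))) :
    2 * T ≤ 2 * P + (a - M) * (a - M + 1) + d * (d + 1) := by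
  obtain ⟨x, rfl⟩ : ∃ x, a = x + 3 * M := ⟨a - 3 * M, by omega⟩
  have e1 : x + 3 * M - M = x + 2 * M := by omega
  rw [e1]
  have e2 : (x + 3 * M) * (x + 3 * M) = x * x + 6 * (x * M) + 9 * (M * M) := by ring
  have e3 : (x + 2 * M) * (x + 2 * M + 1) = x * x + 4 * (x * M) + 4 * (M * M) + x + 2 * M := by
    ring
  rw [e3]
  rw [e2] at h
  have e4 : 0 ≤ x * x := Nat.zero_le _
  have e5 : 0 ≤ x * M := Nat.zero_le _
  omega

theorem K_lt (h : a < 3 * M) : K M a = 2 * a / 3 := if_pos h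

theorem K_ge (h : 3 * M ≤ a) : K M a = a - M := if_neg (by omega)

/-- The end of a round in the middle stage. -/
theorem toBC (hM : 1 ≤ M) (hq : q = M + kD) (hqa : q ≤ a + 1)
    (hd : a < 3 * M → 4 * kD ≤ 3 * M) {i : ℕ} (hi : a + kD + i = b)
    (hJ : 50 * (i * (M + kD + 1)) ≤ 459 * (M * M)) (hpsi : Psi (M + kD + 1) i t (3465 * X))
    (hS : 18 * ((b + 1) * t) + 2 * a ≤ 18 * (a * q) + 4 * (a * a) + 9 * (kD * (kD + 1))) :
    2 * ((b + 1) * t) ≤ 2 * (a * q) + K M a * (K M a + 1) + kD * (kD + 1) ∧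
      (StB M b X t a q (K M a) kD ∨ StC M b X t a q (K M a) kD) := by
  rcases Nat.lt_or_ge a (3 * M) with h | h
  · rw [K_lt h]
    exact ⟨capB hS, Or.inl ⟨hq, hqa, h, rfl, hd h, ⟨i, hi, hJ, hpsi⟩, hS⟩⟩
  · rw [K_ge h]
    have h1 := capC h hS
    refine ⟨h1, Or.inr ⟨hq, by omega, h, i, hi, hJ, hpsi, ?_⟩⟩
    rw [cap_eq (M := M) hq (by omega)] at h1
    exact h1

theorem stB_U (hp : Par M b X n) (h : StB M b X t a q kU kD) :
    ∃ a' q' kU' kD',
      a + 1 ≤ a' ∧ q ≤ q' ∧ a' + q' ≤ n ∧ kU + 1 ≤ kU' ∧ kD ≤ kD' ∧ kU' < a' ∧ kD' < q' ∧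
      kU + 1 + a' * q' ≤ b + 1 + a * q ∧
      ((a' + q' = n ∧ a' ≤ b ∧ q' ≤ b) ∨
        (a' + q' < n ∧
          2 * ((b + 1) * (t + 1)) ≤ 2 * (a' * q') + kU' * (kU' + 1) + kD' * (kD' + 1) ∧
          (StB M b X (t + 1) a' q' kU' kD' ∨ StC M b X (t + 1) a' q' kU' kD'))) := by
  obtain ⟨hq, hqa, ha, hkU, hd, ⟨i, hi, hJ, hpsi⟩, hS⟩ := h
  have hM := hp.M_ge
  have hn := hp.n_gt
  have hb := hp.b_ge
  have hb2 := hp.b_le
  obtain ⟨z, hz1, hz2⟩ := exists_quot (k := q) (by omega) (b - kU)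
  have hz4 : 4 ≤ z := by
    by_contra hcon
    have h1 : (z + 1) * q ≤ 4 * q := Nat.mul_le_mul_right _ (by omega)
    omega
  have hz9 : z ≤ 9 := by
    by_contra hcon
    have h1 : 10 * q ≤ z * q := Nat.mul_le_mul_right _ (by omega)
    omega
  have e1 : (a + z) * q = a * q + z * q := by ring
  have e2 : (z + 1) * q = z * q + q := by ring
  have hS' : 18 * ((b + 1) * (t + 1)) + 2 * (a + z) ≤
      18 * ((a + z) * q) + 4 * ((a + z) * (a + z)) + 9 * (kD * (kD + 1)) := by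
    have e3 : (b + 1) * (t + 1) = (b + 1) * t + (b + 1) := by ring
    have e4 : (a + z) * (a + z) = a * a + 2 * (z * a) + z * z := by ring
    have e5 : 4 * a ≤ z * a := Nat.mul_le_mul_right _ hz4
    have e6 : 4 * z ≤ z * z := Nat.mul_le_mul_right _ hz4
    omega
  have hJ' : 50 * ((i - z) * (M + kD + 1)) ≤ 459 * (M * M) := by
    have : (i - z) * (M + kD + 1) ≤ i * (M + kD + 1) := Nat.mul_le_mul_right _ (by omega)
    omega
  obtain ⟨hcap, hst⟩ := toBC (M := M) (X := X) (a := a + z) (i := i - z) (by omega) hq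
    (by omega) (fun _ => hd) (by omega) hJ' (psi_three hpsi (by omega) (by omega : 3 ≤ z)) hS'
  refine ⟨a + z, q, K M (a + z), kD, by omega, le_refl _, by omega, ?_, le_refl _, ?_,
      by omega, by omega, Or.inr ⟨by omega, hcap, hst⟩⟩
  · rcases Nat.lt_or_ge (a + z) (3 * M) with h | h
    · rw [K_lt h]
      omega
    · rw [K_ge h]
      omega
  · rcases Nat.lt_or_ge (a + z) (3 * M) with h | h
    · rw [K_lt h]
      omega
    · rw [K_ge h]
      omega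

theorem stB_D (hp : Par M b X n) (h : StB M b X t a q kU kD) :
    ∃ a' q' kU' kD',
      a ≤ a' ∧ q + 1 ≤ q' ∧ a' + q' ≤ n ∧ kU ≤ kU' ∧ kD + 1 ≤ kD' ∧ kU' < a' ∧ kD' < q' ∧
      kD + 1 + a' * q' ≤ b + 1 + a * q ∧
      ((a' + q' = n ∧ a' ≤ b ∧ q' ≤ b) ∨
        (a' + q' < n ∧
          2 * ((b + 1) * (t + 1)) ≤ 2 * (a' * q') + kU' * (kU' + 1) + kD' * (kD' + 1) ∧
          (StB M b X (t + 1) a' q' kU' kD' ∨ StC M b X (t + 1) a' q' kU' kD'))) := by
  obtain ⟨hq, hqa, ha, hkU, hd, ⟨i, hi, hJ, hpsi⟩, hS⟩ := h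
  have hM := hp.M_ge
  have hn := hp.n_gt
  have hb := hp.b_ge
  have hb2 := hp.b_le
  obtain ⟨k, hk⟩ : ∃ k, k = M + kD + 1 := ⟨_, rfl⟩
  rw [← hk] at hJ hpsi
  have hk0 : 0 < k := by omega
  obtain ⟨s, hs1, hs2⟩ := exists_quot hk0 i
  obtain ⟨z1, z2, z3, z4, z5, z6⟩ := z_bounds hk0 hs2
  have hs3 : 3 ≤ s := by
    have := z4 (by omega)
    omega
  have hs9 : s ≤ 9 := by
    by_contra hcon
    have h1 : 10 * k ≤ s * k := Nat.mul_le_mul_right _ (by omega)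
    omega
  have hi' : (i - (s + 1)) + (s + 1) = i := by omega
  have hqk : q + 1 = k := by omega
  have e1 : (a + s) * (q + 1) = a * q + a + s * (q + 1) := by ring
  have e2 : (s + 1) * k = s * k + k := by ring
  rw [hqk] at e1
  have hS' : 18 * ((b + 1) * (t + 1)) + 2 * (a + s) ≤
      18 * ((a + s) * (q + 1)) + 4 * ((a + s) * (a + s)) +
        9 * ((kD + 1) * (kD + 1 + 1)) := by
    have e3 : (b + 1) * (t + 1) = (b + 1) * t + (b + 1) := by ring
    have e4 : (a + s) * (a + s) = a * a + 2 * (s * a) + s * s := by ring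
    have e5 : 3 * a ≤ s * a := Nat.mul_le_mul_right _ hs3
    have e6 : 3 * s ≤ s * s := Nat.mul_le_mul_right _ hs3
    have e7 : (kD + 1) * (kD + 1 + 1) = kD * (kD + 1) + 2 * (kD + 1) := by ring
    rw [hqk]
    omega
  have hJ' : 50 * ((i - (s + 1)) * (k + 1)) ≤ 459 * (M * M) := by
    have := J_step hs2 hi'
    omega
  have e8 : M + (kD + 1) + 1 = k + 1 := by omega
  have hd' : a + s < 3 * M → 4 * (kD + 1) ≤ 3 * M := by
    intro h3
    by_contra hcon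
    have f1 : 7 * M ≤ 4 * (k + 1) := by omega
    have f2 : 21 * M ≤ 4 * (i - (s + 1)) := by omega
    have f3 : (21 * M) * (7 * M) ≤ (4 * (i - (s + 1))) * (4 * (k + 1)) := Nat.mul_le_mul f2 f1
    have f4 : (21 * M) * (7 * M) = 147 * (M * M) := by ring
    have f5 : (4 * (i - (s + 1))) * (4 * (k + 1)) = 16 * ((i - (s + 1)) * (k + 1)) := by ring
    have f6 : 0 < M * M := Nat.mul_pos (by omega) (by omega)
    omega
  obtain ⟨hcap, hst⟩ := toBC (M := M) (X := X) (a := a + s) (i := i - (s + 1)) (kD := kD + 1)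
    (q := q + 1) (b := b) (t := t + 1) (by omega) (by omega)
    (by omega) hd' (by omega) (by rw [e8]; exact hJ')
    (by rw [e8]; exact psi_step hpsi (by omega) hi' z1 z2 z3 z4 z5 z6) hS'
  refine ⟨a + s, q + 1, K M (a + s), kD + 1, by omega, le_refl _, by omega, ?_, le_refl _, ?_,
      by omega, ?_, Or.inr ⟨by omega, hcap, hst⟩⟩
  · rcases Nat.lt_or_ge (a + s) (3 * M) with h | h
    · rw [K_lt h]
      omega
    · rw [K_ge h]
      omega
  · rcases Nat.lt_or_ge (a + s) (3 * M) with h | h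
    · rw [K_lt h]
      omega
    · rw [K_ge h]
      omega
  · rw [hqk]
    omega

end Pool.Agent.Helper4_OCS
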