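import Pool.Agent.Helper4_OCS.Num

/-!
# MP_64dd91_co: the last stage
-/

set_option autoImplicit false

namespace Pool.Agent.Helper4_OCS

variable {M b X n t a q kU kD : ℕ}

theorem exists_quot {k : ℕ} (hk : 0 < k) (i : ℕ) : ∃ s, s * k ≤ i ∧ i < (s + 1) * k := by
  refine ⟨i / k, Nat.div_mul_le_self i k, ?_⟩
  rw [mul_comm]
  exact Nat.lt_mul_div_succ i hk

/-- The sum of the capacities. -/
theorem cap_eq (h1 : q = M + kD) (h2 : kU + M = a) :
    2 * (a * q) + kU * (kU + 1) + kD * (kD + 1) = (a + kD) * (a + kD + 1) + M * (M - 1) := by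
  subst h1
  subst h2
  rcases Nat.eq_zero_or_pos M with h0 | h0
  · subst h0
    ring
  · obtain ⟨m, rfl⟩ : ∃ m, M = m + 1 := ⟨M - 1, by omega⟩
    rw [Nat.add_sub_cancel]
    ring

/-- The concrete consequences of `i < z k`. -/
theorem z_bounds {i k z : ℕ} (hk : 0 < k) (h : i < z * k) :
    1 ≤ z ∧ (k ≤ i → 2 ≤ z) ∧ (2 * k ≤ i → 3 ≤ z) ∧ (3 * k ≤ i → 4 ≤ z) ∧
      (4 * k ≤ i → 5 ≤ z) ∧ (5 * k ≤ i → 6 ≤ z) := by
  have key : ∀ m, m * k ≤ i → m + 1 ≤ z := by
    intro m hm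
    by_contra hcon
    have h1 : z * k ≤ m * k := Nat.mul_le_mul_right _ (by omega)
    omega
  refine ⟨?_, ?_, fun h => key 2 h, fun h => key 3 h, fun h => key 4 h, fun h => key 5 h⟩
  · exact key 0 (by omega)
  · intro h
    exact key 1 (by omega)

theorem stC_U (hp : Par M b X n) (h : StC M b X t a q kU kD) (hlt : a + q < n) :
    ∃ a' q' kU' kD',
      a + 1 ≤ a' ∧ q ≤ q' ∧ a' + q' ≤ n ∧ kU + 1 ≤ kU' ∧ kD ≤ kD' ∧ kU' < a' ∧ kD' < q' ∧
      kU + 1 + a' * q' ≤ b + 1 + a * q ∧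
      ((a' + q' = n ∧ a' ≤ b ∧ q' ≤ b) ∨
        (a' + q' < n ∧
          2 * ((b + 1) * (t + 1)) ≤ 2 * (a' * q') + kU' * (kU' + 1) + kD' * (kD' + 1) ∧
          StC M b X (t + 1) a' q' kU' kD')) := by
  obtain ⟨hq, hkU, ha, i, hi, hJ, hpsi, hc⟩ := h
  have hM := hp.M_ge
  have hn := hp.n_le
  obtain ⟨k, hk⟩ : ∃ k, k = M + kD + 1 := ⟨_, rfl⟩
  rw [← hk] at hJ hpsi
  have hk0 : 0 < k := by omega
  obtain ⟨s, hs1, hs2⟩ := exists_quot hk0 i
  obtain ⟨z1, z2, z3, z4, z5, z6⟩ := z_bounds hk0 hs2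
  have hcost : ∀ z, z ≤ s + 1 → kU + 1 + (a + z) * q ≤ b + 1 + a * q := by
    intro z hz
    have e1 : (a + z) * q = a * q + z * q := by ring
    have e2 : z * q ≤ (s + 1) * q := Nat.mul_le_mul_right _ hz
    have e3 : (s + 1) * q = s * q + q := by ring
    have e4 : s * q ≤ s * k := Nat.mul_le_mul_left _ (by omega)
    omega
  by_cases hfin : n ≤ a + (s + 1) + q
  · refine ⟨n - q, q, n - q - M, kD, by omega, le_refl _, by omega, by omega, le_refl _,
      by omega, by omega, ?_, Or.inl ⟨by omega, by omega, by omega⟩⟩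
    have := hcost (n - q - a) (by omega)
    have e : a + (n - q - a) = n - q := by omega
    rwa [e] at this
  · push Not at hfin
    have hsi : s ≤ i := by
      by_contra hcon
      omega
    have hi' : (i - (s + 1)) + (s + 1) = i := by omega
    have hpsi' : Psi k (i - (s + 1)) (t + 1) (3465 * X) :=
      psi_step hpsi (by omega) hi' z1 z2 z3 z4 z5 z6
    have hcap := cap_step hp (r := a + kD) (i' := i - (s + 1)) (k' := k) (by omega) (by omega)
      hJ z1 z2 hs2 hi' (le_refl _) hc hpsi'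
    have e1 : a + kD + (s + 1) = a + (s + 1) + kD := by omega
    rw [e1] at hcap
    refine ⟨a + (s + 1), q, kU + (s + 1), kD, by omega, le_refl _, by omega, by omega,
      le_refl _, by omega, by omega, hcost _ (le_refl _), Or.inr ⟨by omega, ?_, ?_⟩⟩
    · rw [cap_eq (M := M) hq (by omega)]
      exact hcap
    · refine ⟨hq, by omega, by omega, i - (s + 1), by omega, ?_, ?_, hcap⟩
      · rw [← hk]
        have : (i - (s + 1)) * k ≤ i * k := Nat.mul_le_mul_right _ (by omega)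
        omega
      · rw [← hk]
        exact hpsi'

theorem stC_D (hp : Par M b X n) (h : StC M b X t a q kU kD) (hlt : a + q < n) :
    ∃ a' q' kU' kD',
      a ≤ a' ∧ q + 1 ≤ q' ∧ a' + q' ≤ n ∧ kU ≤ kU' ∧ kD + 1 ≤ kD' ∧ kU' < a' ∧ kD' < q' ∧
      kD + 1 + a' * q' ≤ b + 1 + a * q ∧
      ((a' + q' = n ∧ a' ≤ b ∧ q' ≤ b) ∨
        (a' + q' < n ∧
          2 * ((b + 1) * (t + 1)) ≤ 2 * (a' * q') + kU' * (kU' + 1) + kD' * (kD' + 1) ∧
          StC M b X (t + 1) a' q' kU' kD')) := by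
  obtain ⟨hq, hkU, ha, i, hi, hJ, hpsi, hc⟩ := h
  have hM := hp.M_ge
  have hn := hp.n_le
  obtain ⟨k, hk⟩ : ∃ k, k = M + kD + 1 := ⟨_, rfl⟩
  rw [← hk] at hJ hpsi
  have hk0 : 0 < k := by omega
  obtain ⟨s, hs1, hs2⟩ := exists_quot hk0 i
  obtain ⟨z1, z2, z3, z4, z5, z6⟩ := z_bounds hk0 hs2
  have hcost : ∀ z, z ≤ s → kD + 1 + (a + z) * (q + 1) ≤ b + 1 + a * q := by
    intro z hz
    have e1 : (a + z) * (q + 1) = a * q + a + z * (q + 1) := by ring
    have e2 : z * (q + 1) ≤ s * (q + 1) := Nat.mul_le_mul_right _ hz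
    have e4 : q + 1 = k := by omega
    rw [e4] at e1 e2
    rw [e4]
    omega
  by_cases hfin : n ≤ a + s + (q + 1)
  · refine ⟨n - (q + 1), q + 1, n - (q + 1) - M, kD + 1, by omega, le_refl _, by omega, by omega,
      le_refl _, by omega, by omega, ?_, Or.inl ⟨by omega, by omega, by omega⟩⟩
    have := hcost (n - (q + 1) - a) (by omega)
    have e : a + (n - (q + 1) - a) = n - (q + 1) := by omega
    rwa [e] at this
  · push Not at hfin
    have hsi : s ≤ i := by
      by_contra hcon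
      omega
    have hi' : (i - (s + 1)) + (s + 1) = i := by omega
    have hpsi' : Psi (k + 1) (i - (s + 1)) (t + 1) (3465 * X) :=
      psi_step hpsi (by omega) hi' z1 z2 z3 z4 z5 z6
    have hcap := cap_step hp (r := a + kD) (i' := i - (s + 1)) (k' := k + 1) (by omega)
      (by omega) hJ z1 z2 hs2 hi' (by omega) hc hpsi'
    have e1 : a + kD + (s + 1) = a + s + (kD + 1) := by omega
    rw [e1] at hcap
    have e2 : M + (kD + 1) + 1 = k + 1 := by omega
    refine ⟨a + s, q + 1, kU + s, kD + 1, by omega, le_refl _, by omega, by omega,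
      le_refl _, by omega, by omega, hcost _ (le_refl _), Or.inr ⟨by omega, ?_, ?_⟩⟩
    · rw [cap_eq (M := M) (by omega) (by omega)]
      exact hcap
    · refine ⟨by omega, by omega, by omega, i - (s + 1), by omega, ?_, ?_, hcap⟩
      · rw [e2]
        have := J_step hs2 hi'
        omega
      · rw [e2]
        exact hpsi'

end Pool.Agent.Helper4_OCS
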