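import Pool.Agent.Helper15_OCG.Strategy

/-!
# MP_64dd91_co: adding one relation in the class of the two-layer positions
-/

set_option autoImplicit false

namespace Pool.Agent.Helper4_OCS

open Finset Pool.Agent.Helper51_OCG Pool.Agent.Helper15_OCG

variable {n : ℕ} {P : Position n} {A B : Finset (Fin n)} {kU kD : ℕ}

/-- The number of the relations whose upper end is outside `B`. -/
def TU (P : Position n) (B : Finset (Fin n)) : ℕ :=
  ∑ x ∈ univ.filter (fun x => x ∉ B), (Dn P x).card

/-- The vertices outside `B` with at least `j` predecessors. -/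
def Rw (P : Position n) (B : Finset (Fin n)) (j : ℕ) : Finset (Fin n) :=
  univ.filter fun x => x ∉ B ∧ j ≤ (Dn P x).card

theorem mem_Rw {j : ℕ} {x : Fin n} : x ∈ Rw P B j ↔ x ∉ B ∧ j ≤ (Dn P x).card := by
  simp [Rw]

theorem sum_Rw_le (k : ℕ) : ∑ j ∈ Icc 1 k, (Rw P B j).card ≤ TU P B := by
  have h1 : ∀ j, (Rw P B j).card = ∑ x ∈ univ.filter (fun x => x ∉ B),
      (if j ≤ (Dn P x).card then 1 else 0) := by
    intro j
    rw [← Finset.card_filter, Finset.filter_filter]
    rfl
  simp_rw [h1]
  rw [Finset.sum_comm]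
  apply Finset.sum_le_sum
  intro x _
  rw [← Finset.card_filter]
  have h2 : (Icc 1 k).filter (fun j => j ≤ (Dn P x).card) ⊆ Icc 1 (Dn P x).card := by
    intro j hj
    rw [mem_filter, mem_Icc] at hj
    rw [mem_Icc]
    exact ⟨hj.1.1, hj.2⟩
  have h3 := card_le_card h2
  rw [Nat.card_Icc] at h3
  omega

theorem sum_stair (k : ℕ) : 2 * ∑ j ∈ Icc 1 k, (k + 1 - j) = k * (k + 1) := by
  have h : ∑ j ∈ Icc 1 k, (k + 1 - j) = ∑ j ∈ Icc 1 k, j := by
    apply Finset.sum_bij' (fun j _ => k + 1 - j) (fun j _ => k + 1 - j)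
    · intro j hj
      rw [mem_Icc] at hj ⊢
      omega
    · intro j hj
      rw [mem_Icc] at hj ⊢
      omega
    · intro j hj
      rw [mem_Icc] at hj
      omega
    · intro j hj
      rw [mem_Icc] at hj
      omega
    · intro j hj
      rfl
  rw [h]
  induction k with
  | zero => simp
  | succ k ih =>
    rw [Finset.sum_Icc_succ_top (by omega), Nat.mul_add]
    have h2 : ∑ j ∈ Icc 1 k, (k + 1 - j) = ∑ j ∈ Icc 1 k, j := by
      apply Finset.sum_bij' (fun j _ => k + 1 - j) (fun j _ => k + 1 - j)
      · intro j hj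
        rw [mem_Icc] at hj ⊢
        omega
      · intro j hj
        rw [mem_Icc] at hj ⊢
        omega
      · intro j hj
        rw [mem_Icc] at hj
        omega
      · intro j hj
        rw [mem_Icc] at hj
        omega
      · intro j hj
        rfl
    rw [ih h2]
    ring

/-- The critical index. -/
theorem exists_index (hT : 2 * TU P B < kU * (kU + 1)) :
    ∃ j, 1 ≤ j ∧ j ≤ kU ∧ (Rw P B j).card + j = kU ∧ ∀ x ∈ Rw P B j, j + 1 ≤ (Dn P x).card := by
  classical
  -- some index is deficient
  have hex : ∃ j, 1 ≤ j ∧ j ≤ kU ∧ (Rw P B j).card + j ≤ kU := by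
    by_contra hcon
    push Not at hcon
    have h1 : ∑ j ∈ Icc 1 kU, (kU + 1 - j) ≤ ∑ j ∈ Icc 1 kU, (Rw P B j).card := by
      apply Finset.sum_le_sum
      intro j hj
      rw [mem_Icc] at hj
      have := hcon j hj.1 hj.2
      omega
    have h2 := sum_stair kU
    have h3 := sum_Rw_le (P := P) (B := B) kU
    omega
  obtain ⟨j0, hj0⟩ := hex
  -- the largest one
  have hne : ((Icc 1 kU).filter fun j => (Rw P B j).card + j ≤ kU).Nonempty :=
    ⟨j0, by
      rw [mem_filter, mem_Icc]
      exact ⟨⟨hj0.1, hj0.2.1⟩, hj0.2.2⟩⟩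
  obtain ⟨j, hj, hmax⟩ := Finset.exists_max_image _ (fun j => j) hne
  rw [mem_filter, mem_Icc] at hj
  obtain ⟨⟨hj1, hj2⟩, hj3⟩ := hj
  have hsub : Rw P B (j + 1) ⊆ Rw P B j := by
    intro x hx
    rw [mem_Rw] at hx ⊢
    exact ⟨hx.1, by omega⟩
  have hcard := card_le_card hsub
  by_cases hjk : j = kU
  · refine ⟨j, hj1, hj2, by omega, ?_⟩
    intro x hx
    have h1 : (Rw P B j).card = 0 := by omega
    rw [card_eq_zero] at h1
    rw [h1] at hx
    exact absurd hx (notMem_empty _)
  · have h1 : kU < (Rw P B (j + 1)).card + (j + 1) := by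
      by_contra hcon
      have h2 := hmax (j + 1) (by
        rw [mem_filter, mem_Icc]
        exact ⟨⟨by omega, by omega⟩, by omega⟩)
      omega
    refine ⟨j, hj1, hj2, by omega, ?_⟩
    have h2 : Rw P B (j + 1) = Rw P B j := eq_of_subset_of_card_le hsub (by omega)
    intro x hx
    rw [← h2, mem_Rw] at hx
    exact hx.2

/-- UNIT EXTENSION below `A`. -/
theorem unitU (h : St P A B kU kD) (hU : kU < A.card) (hT : 2 * TU P B < kU * (kU + 1)) :
    ∃ P' : Position n, P ⊆ P' ∧ St P' A B kU kD ∧ P'.card = P.card + 1 := by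
  classical
  obtain ⟨j, hj1, hj2, hj3, hS⟩ := exists_index hT
  -- the vertex y
  have hne : (A.filter fun x => (Dn P x).card < j).Nonempty := by
    by_contra hcon
    rw [not_nonempty_iff_eq_empty] at hcon
    have h1 : A ⊆ Rw P B j := by
      intro x hx
      rw [mem_Rw]
      refine ⟨h.disj x hx, ?_⟩
      by_contra hlt
      have : x ∈ A.filter fun x => (Dn P x).card < j := by
        rw [mem_filter]
        exact ⟨hx, by omega⟩
      rw [hcon] at this
      exact absurd this (notMem_empty _)
    have h2 := card_le_card h1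
    omega
  have hne2 : (univ.filter fun x => x ∉ B ∧ (Dn P x).card < j).Nonempty := by
    obtain ⟨x, hx⟩ := hne
    rw [mem_filter] at hx
    exact ⟨x, by
      rw [mem_filter]
      exact ⟨mem_univ _, h.disj x hx.1, hx.2⟩⟩
  obtain ⟨y, hy, hymax⟩ := Finset.exists_max_image _ (fun x => (Dn P x).card) hne2
  rw [mem_filter] at hy
  obtain ⟨-, hyB, hyj⟩ := hy
  have hbig : ∀ z, z ∉ B → (Dn P y).card < (Dn P z).card → z ∈ Rw P B j := by
    intro z hz hlt
    rw [mem_Rw]
    refine ⟨hz, ?_⟩
    by_contra hcon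
    have := hymax z (by
      rw [mem_filter]
      exact ⟨mem_univ _, hz, by omega⟩)
    omega
  -- the vertex w
  have hw : ∃ w, w ∈ A ∧ w ≠ y ∧ w ∉ Dn P y ∧ (Dn P w).card < j ∧
      ∀ z ∈ Rw P B j, w ∈ Dn P z := by
    by_cases hSe : (Rw P B j).Nonempty
    · obtain ⟨x0, hx0, hmin⟩ := Finset.exists_min_image _ (fun x => (Dn P x).card) hSe
      have hx0' := mem_Rw.mp hx0
      have h1 := hS x0 hx0
      have h2 : 1 < (Dn P x0 \ Dn P y).card := by
        have h3 := le_card_sdiff (Dn P y) (Dn P x0)
        omega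
      obtain ⟨w, hwm, hwy⟩ := exists_mem_ne h2 y
      rw [mem_sdiff] at hwm
      have hwA : w ∈ A := by
        rcases h.loc w x0 (mem_Dn.mp hwm.1) with h3 | h3
        · exact h3
        · exact absurd h3 hx0'.1
      refine ⟨w, hwA, hwy, hwm.2, ?_, ?_⟩
      · by_contra hcon
        have h4 : w ∈ Rw P B j := by
          rw [mem_Rw]
          exact ⟨h.disj w hwA, by omega⟩
        have h5 := hmin w h4
        have h6 : Dn P w ⊂ Dn P x0 := by
          refine ⟨Dn_mono h (mem_Dn.mp hwm.1), fun h7 => ?_⟩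
          exact h.irr w (mem_Dn.mp (h7 hwm.1))
        have h7 := card_lt_card h6
        omega
      · intro z hz
        have hz' := mem_Rw.mp hz
        rcases h.nestD z x0 hz'.1 hx0'.1 with h4 | h4
        · have h5 : Dn P z = Dn P x0 := eq_of_subset_of_card_le h4 (hmin z hz)
          rw [h5]
          exact hwm.1
        · exact h4 hwm.1
    · rw [not_nonempty_iff_eq_empty] at hSe
      have h1 : 1 < (A \ Dn P y).card := by
        have h3 := le_card_sdiff (Dn P y) A
        rw [hSe, card_empty] at hj3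
        omega
      obtain ⟨w, hwm, hwy⟩ := exists_mem_ne h1 y
      rw [mem_sdiff] at hwm
      refine ⟨w, hwm.1, hwy, hwm.2, ?_, ?_⟩
      · by_contra hcon
        have h4 : w ∈ Rw P B j := by
          rw [mem_Rw]
          exact ⟨h.disj w hwm.1, by omega⟩
        rw [hSe] at h4
        exact absurd h4 (notMem_empty _)
      · intro z hz
        rw [hSe] at hz
        exact absurd hz (notMem_empty _)
  obtain ⟨w, hwA, hwy, hwD, hwj, hwS⟩ := hw
  have hwB : w ∉ B := h.disj w hwA
  have hDwy : Dn P w ⊆ Dn P y := by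
    rcases h.nestD w y hwB hyB with h1 | h1
    · exact h1
    · have h2 := hymax w (by
        rw [mem_filter]
        exact ⟨mem_univ _, hwB, hwj⟩)
      rw [eq_of_subset_of_card_le h1 h2]
  have hup : ∀ z, z ∉ B → (y, z) ∈ P → (w, z) ∈ P := by
    intro z hz hyz
    have h1 : Dn P y ⊂ Dn P z := by
      refine ⟨Dn_mono h hyz, fun h2 => ?_⟩
      exact h.irr y (mem_Dn.mp (h2 (mem_Dn.mpr hyz)))
    exact mem_Dn.mp (hwS z (hbig z hz (card_lt_card h1)))
  have hnew : (w, y) ∉ P := fun h1 => hwD (mem_Dn.mpr h1)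
  have hmem : ∀ x z, (x, z) ∈ insert (w, y) P ↔ (x = w ∧ z = y) ∨ (x, z) ∈ P := by
    intro x z
    rw [mem_insert, Prod.mk.injEq]
  have hDn : ∀ z, z ≠ y → Dn (insert (w, y) P) z = Dn P z := by
    intro z hz
    ext x
    rw [mem_Dn, mem_Dn, hmem]
    constructor
    · rintro (⟨-, h1⟩ | h1)
      · exact absurd h1 hz
      · exact h1
    · exact Or.inr
  have hDny : Dn (insert (w, y) P) y = insert w (Dn P y) := by
    ext x
    rw [mem_insert, mem_Dn, mem_Dn, hmem]
    constructor
    · rintro (⟨h1, -⟩ | h1)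
      · exact Or.inl h1
      · exact Or.inr h1
    · rintro (h1 | h1)
      · exact Or.inl ⟨h1, rfl⟩
      · exact Or.inr h1
  have hUp : ∀ x, x ∉ A → Up (insert (w, y) P) x = Up P x := by
    intro x hx
    ext z
    rw [mem_Up, mem_Up, hmem]
    constructor
    · rintro (⟨h1, -⟩ | h1)
      · exact absurd (h1 ▸ hwA) hx
      · exact h1
    · exact Or.inr
  have hcnt : ∀ z, z ∉ B → Dn P y ⊂ Dn P z → z ∈ Rw P B j := fun z hz h1 =>
    hbig z hz (card_lt_card h1)
  have hcy : (insert w (Dn P y)).card = (Dn P y).card + 1 := card_insert_of_notMem hwD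
  refine ⟨insert (w, y) P, subset_insert _ _, ?_, card_insert_of_notMem hnew⟩
  constructor
  · intro x hx
    rcases (hmem x x).mp hx with ⟨h1, h2⟩ | h1
    · exact hwy (h1 ▸ h2)
    · exact h.irr x h1
  · intro x y1 z hx1 hx2
    rw [hmem] at hx1 hx2 ⊢
    rcases hx1 with ⟨rfl, rfl⟩ | hx1
    · rcases hx2 with ⟨h1, -⟩ | hx2
      · exact absurd h1.symm hwy
      · right
        by_cases hz : z ∈ B
        · exact h.full _ hwA z hz
        · exact hup z hz hx2
    · rcases hx2 with ⟨rfl, rfl⟩ | hx2
      · right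
        exact mem_Dn.mp (hDwy (mem_Dn.mpr hx1))
      · exact Or.inr (h.trans x y1 z hx1 hx2)
  · exact h.disj
  · intro a ha b hb
    exact mem_insert_of_mem (h.full a ha b hb)
  · intro x z hxz
    rcases (hmem x z).mp hxz with ⟨rfl, -⟩ | h1
    · exact Or.inl hwA
    · exact h.loc x z h1
  · -- nestD
    have key : ∀ z, z ∉ B → z ≠ y → Dn (insert (w, y) P) y ⊆ Dn (insert (w, y) P) z ∨
        Dn (insert (w, y) P) z ⊆ Dn (insert (w, y) P) y := by
      intro z hz hzy
      rw [hDny, hDn z hzy]
      by_cases h2 : Dn P z ⊆ Dn P y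
      · exact Or.inr (h2.trans (subset_insert _ _))
      · left
        have h1 : Dn P y ⊆ Dn P z := by
          rcases h.nestD y z hyB hz with h1 | h1
          · exact h1
          · exact absurd h1 h2
        rw [insert_subset_iff]
        exact ⟨hwS z (hcnt z hz ⟨h1, h2⟩), h1⟩
    intro x z hx hz
    by_cases hxy : x = y
    · subst hxy
      by_cases hzy : z = x
      · subst hzy
        exact Or.inl (Subset.refl _)
      · exact key z hz hzy
    · by_cases hzy : z = y
      · subst hzy
        exact (key x hx hxy).symm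
      · rw [hDn x hxy, hDn z hzy]
        exact h.nestD x z hx hz
  · intro x z hx hz
    rw [hUp x hx, hUp z hz]
    exact h.nestU x z hx hz
  · -- envU
    intro x hx
    by_cases hxy : x = y
    · subst hxy
      rw [hDny, hcy]
      have h1 : (univ.filter fun z => z ∉ B ∧
          insert w (Dn P x) ⊂ Dn (insert (w, x) P) z) ⊆ Rw P B j := by
        intro z hz
        rw [mem_filter] at hz
        obtain ⟨-, hzB, hz2⟩ := hz
        by_cases hzx : z = x
        · subst hzx
          rw [hDny] at hz2
          exact absurd (Subset.refl _) hz2.2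
        · rw [hDn z hzx] at hz2
          exact hcnt z hzB (lt_of_le_of_lt (subset_insert _ _) hz2)
      have h2 := card_le_card h1
      omega
    · rw [hDn x hxy]
      by_cases hcase : Dn P x ⊂ insert w (Dn P y) ∧ ¬ Dn P x ⊂ Dn P y
      · -- then `D(x) = D(y)`
        have h1 : Dn P y ⊆ Dn P x := by
          rcases h.nestD x y hx hyB with h1 | h1
          · by_contra hcon
            exact hcase.2 ⟨h1, hcon⟩
          · exact h1
        have h2 := card_lt_card hcase.1
        have h3 : Dn P y = Dn P x := eq_of_subset_of_card_le h1 (by omega)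
        have h4 : (univ.filter fun z => z ∉ B ∧ Dn P x ⊂ Dn (insert (w, y) P) z) ⊆
            insert y (Rw P B j) := by
          intro z hz
          rw [mem_filter] at hz
          obtain ⟨-, hzB, hz2⟩ := hz
          by_cases hzy : z = y
          · rw [hzy]
            exact mem_insert_self _ _
          · rw [hDn z hzy, ← h3] at hz2
            exact mem_insert_of_mem (hcnt z hzB hz2)
        have h5 := card_le_card h4
        have h6 := card_insert_le y (Rw P B j)
        rw [← h3] at h5 ⊢
        omega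
      · have h4 : (univ.filter fun z => z ∉ B ∧ Dn P x ⊂ Dn (insert (w, y) P) z) ⊆
            univ.filter fun z => z ∉ B ∧ Dn P x ⊂ Dn P z := by
          intro z hz
          rw [mem_filter] at hz ⊢
          obtain ⟨-, hzB, hz2⟩ := hz
          refine ⟨mem_univ _, hzB, ?_⟩
          by_cases hzy : z = y
          · rw [hzy, hDny] at hz2
            rw [hzy]
            by_contra hcon
            exact hcase ⟨hz2, hcon⟩
          · rwa [hDn z hzy] at hz2
        exact (Nat.add_le_add_left (card_le_card h4) _).trans (h.envU x hx)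
  · intro x hx
    rw [hUp x hx]
    refine le_trans (Nat.add_le_add_left (card_le_card ?_) _) (h.envD x hx)
    intro z hz
    rw [mem_filter] at hz ⊢
    obtain ⟨-, hzA, hz2⟩ := hz
    rw [hUp z hzA] at hz2
    exact ⟨mem_univ _, hzA, hz2⟩

end Pool.Agent.Helper4_OCS
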